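import Pool.Agent.H18.EDB.Targets2

/-!
# Zariski dense orbits in dimension `ν` by backward heights: the backward orbit
-/

open MvPolynomial
open Pool.Agent.H12.ZD (pmap)
open Pool.Agent.H18.HIT Pool.Agent.H18.HX Pool.Agent.H18.VZ
open Pool.Agent.H8.ZA (HFam Const NA)
open Pool.Agent.H8.TD (lc dg Cop)
open Pool.Agent.H8.TX (hn)
open Pool.Agent.H2.ED
open Pool.Agent.H18.TE (lg Gc)
open Pool.Agent.H18.TXB (avn)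

namespace Pool.Agent.H18.EDB

/-- the backward orbit and the growth of its heights -/
def T_ORC : Prop := ∀ (ν r d e m Y : ℕ) (P b : Po (ν + 2) Qb) (F : Tup (ν + 2) Qb) (K : Type)
  [Field K] [Algebra Qb K] (ξ : Fin (ν + 2) → K) (τ : K →ₐ[Qb] K) (κ β : ℝ)
  (T : Finset (Po (ν + 2) Qb)) (s : Fin ν → Fin (ν + 2) → Qb), 2 ≤ ν → Hyp P r → r ≤ d →
  (∀ i, (F i).IsHomogeneous d) → Slf (Ideal.span {P}) F → Fd P F ξ τ → 1 ≤ e →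
  Module.finrank τ.fieldRange K ≤ e → 1 ≤ m → 1 ≤ Y → Y ≤ dgm Qb (pn τ ξ m) ξ (ν - 1) s →
  0 ≤ β → 2 < κ → 8 * β ≤ κ ^ 2 → 8 * β ≤ κ * ((Y : ℝ) / ((r : ℝ) ^ ν * (e : ℝ) ^ m)) →
  (∀ p ∈ T, aeval ξ p ≠ 0) → Rcb P F m κ β T → (∃ l, b.IsHomogeneous l) → ¬ P ∣ b →
  ∃ k, 1 ≤ k ∧ m ∣ k ∧ ∀ (E : ℕ) (θ Δ : Po (ν + 2) Qb), Bas P (it F k) E θ Δ →
    Cvi (Ideal.span {P}) (it F k) E → ∀ g : Po (ν + 1) Qb, g ≠ 0 →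
    ∃ (x : ℕ → Fin (ν + 2) → Qb) (K₀ : IntermediateField ℚ Qb) (F' : HFam K₀),
      FiniteDimensional ℚ K₀ ∧ (∀ i, ∀ c ∈ (F i).coeffs, c ∈ K₀) ∧
      (∀ j, eval (x j) P = 0) ∧ (∀ j, (pmap F)^[k] (x (j + 1)) = x j) ∧
      (∀ j n : ℕ, eval ((pmap F)^[n] (x j)) b ≠ 0) ∧ (∀ j n : ℕ, (pmap F)^[n] (x j) 1 ≠ 0) ∧
      eval (x 0) (up g) ≠ 0 ∧ (van (it F k) (x 0)).IsPrime ∧
      Tot P (it F k) E θ (van (it F k) (x 0)) ∧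
      (∀ j, ∀ q ∈ van (it F k) (x 0), eval (x j) q = 0) ∧
      ∀ (N : ℕ) (Γ : Finset (Qb ≃ₐ[K₀] Qb)) (L : IntermediateField K₀ Qb), 1 ≤ N →
        Gc K₀ Γ L → (∀ i, x (N + 1) i ∈ L) →
        (κ / 2) ^ (k / m) * avn F' Γ (af (x N)) ≤ avn F' Γ (af (x (N + 1))) ∧
        (κ / 2) ^ N * Γ.card ≤ (κ / 2) * avn F' Γ (af (x N))

end Pool.Agent.H18.EDB
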