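import Pool.Agent.H18.EDB.Bet
import Pool.Agent.H18.EDB.Targets3
import Pool.Agent.H2.EDV.Hit

/-!
# Zariski dense orbits in dimension `ν` by backward heights: the main theorem
-/

set_option autoImplicit false

open MvPolynomial
open Pool.Agent.H12.ZD (pmap)
open Pool.Agent.H18.HIT Pool.Agent.H18.HX Pool.Agent.H18.VZ
open Pool.Agent.H8.ZA (HFam Const NA)
open Pool.Agent.H8.TD (lc dg Cop)
open Pool.Agent.H8.TX (hn)
open Pool.Agent.H2.ED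
open Pool.Agent.H18.TE (lg Gc T_GAL)
open Pool.Agent.H18.TXB (avn T_CNV)

namespace Pool.Agent.H18.EDB

theorem pf_BEC (hJPR : T_JPR) (hCNV : T_CNV) (hGAL : T_GAL) (hNUB : T_NUB) (hORC : T_ORC)
    (hVSB : T_VSB) (hTRE : T_TRE) (hTWR : T_TWR) : T_BET := by
  intro ν r d e P b F K _ _ ξ τ μ μ' C hν hP hrd hd hF hsl hNI hfd he hτ hcvi hμ hμ' hμμ hlow hup
    hb hPb
  classical
  have hr : 1 ≤ r := one_le_r hP
  have hpr := hP.irr.prime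
  have hprime : (Ideal.span {P} : Ideal (Po (ν + 2) Qb)).IsPrime := isPrime_span hP.irr
  have he0 : (0 : ℝ) < e := by exact_mod_cast he
  have he1 : (1 : ℝ) ≤ e := by exact_mod_cast he
  have hr0 : (0 : ℝ) < r := by exact_mod_cast hr
  obtain ⟨c, hc1, hcμ, hnub⟩ := hNUB ν r d e P F K ξ τ μ μ' C hν hP hF hsl hfd hτ hμ hμ' hμμ hlow
    hup
  obtain ⟨m₀, hm₀⟩ := hnub ((r : ℝ) ^ ν)
  obtain ⟨m, hm⟩ : ∃ m : ℕ, m = m₀ + 1 := ⟨_, rfl⟩
  obtain ⟨⟨s, hs⟩, κ, β, T, hβ, hκc, hβκ, hT, hrec⟩ := hm₀ m (by omega)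
  obtain ⟨Y, hY⟩ : ∃ Y : ℕ, Y = dgm Qb (pn τ ξ m) ξ (ν - 1) s := ⟨_, rfl⟩
  rw [← hY] at hs
  have hc0 : 0 < c := by linarith
  have hcm : 1 < c ^ m := one_lt_pow₀ hc1 (by omega)
  have hρ : c ^ m ≤ (Y : ℝ) / ((r : ℝ) ^ ν * (e : ℝ) ^ m) := by
    rw [le_div_iff₀ (by positivity)]
    calc c ^ m * ((r : ℝ) ^ ν * (e : ℝ) ^ m) = (r : ℝ) ^ ν * (c * e) ^ m := by
          rw [mul_pow]
          ring
      _ ≤ Y := hs
  have hY1 : 1 ≤ Y := by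
    rw [Nat.one_le_iff_ne_zero]
    rintro rfl
    rw [Nat.cast_zero, zero_div] at hρ
    linarith
  have hκ : 2 < κ := by linarith
  have hκ0 : 0 < κ := by linarith
  obtain ⟨k, hk, hmk, hmain⟩ := hORC ν r d e m Y P b F K ξ τ κ β T s (by omega) hP hrd hF hsl hfd he
    hτ (by omega) hY1 hY.le hβ hκ
    (by
      refine hβκ.trans ?_
      rw [pow_two]
      exact mul_le_mul_of_nonneg_left (by linarith) hκ0.le)
    (hβκ.trans (mul_le_mul_of_nonneg_left hρ hκ0.le)) hT hrec hb hPb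
  have hmk' : m ≤ k := Nat.le_of_dvd (by omega) hmk
  obtain ⟨-, κ', β', T', hβ', hκc', hβκ', hT', hrec'⟩ := hm₀ k (by omega)
  have hsk := hsl.it k
  obtain ⟨E, θ, Δ, hB, hcv⟩ := Facts.bas (ν + 1) Qb P (it F k) hP.irr hP.mon hsk
  have hNT : NIv P (it F k) := Facts.niv (ν + 1) r d k Qb P F hP hF hsl hk hNI
  have hFk : ∀ i, (it F k i).IsHomogeneous (d ^ k) := it_hom hF k
  have hD2 : 2 ≤ d ^ k := hd.trans (Nat.le_self_pow (by omega) d)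
  -- the degree
  have hE2 : d ^ k * e ^ k ≤ E := by
    have h1 := Pool.Agent.H18.HX.All.cni (ν + 2) Qb (Ideal.span {P}) F (d * e) k hsl hcvi
    rw [mul_pow] at h1
    refine Pool.Agent.H18.HX.All.cdv (ν + 2) (d ^ k * e ^ k) E Qb (Ideal.span {P}) (it F k) θ h1
      hB.pos fun u => ?_
    obtain ⟨M, c, hc⟩ := hB.gen u
    refine ⟨Δ ^ M, c, ?_, ?_⟩
    · rw [Ideal.mem_span_singleton]
      exact fun h => hB.ne (hpr.dvd_of_dvd_pow h)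
    · rw [Ideal.mem_span_singleton, map_pow]
      exact hc
  obtain ⟨g₁, hg₁, hinv⟩ := Facts.inv (ν + 1) r (d ^ k) E Qb P (it F k) θ Δ hP hFk hsk hB hNT
  -- the polynomials which do not vanish at the point
  obtain ⟨v, hv⟩ : ∃ v : Po (ν + 2) Qb, v = ∏ p ∈ T', hmg p := ⟨_, rfl⟩
  have hvhom : v.IsHomogeneous (∑ p ∈ T', p.totalDegree) := by
    rw [hv]
    exact IsHomogeneous.prod _ _ _ fun p _ => hmg_hom p
  have hPv : ¬ P ∣ v := by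
    rw [hv]
    intro h
    obtain ⟨p, hp, hPp⟩ := (Prime.dvd_finsetProd_iff hpr _).1 h
    apply hT' p hp
    rw [← aeval_hmg p ξ hfd.gp.one]
    exact aeval_dvd hfd.gp hP hPp
  have hvT : ∀ x : Fin (ν + 2) → Qb, x 1 = 1 → eval x v ≠ 0 → ∀ p ∈ T', eval x p ≠ 0 := by
    intro x hx1 hxv p hp
    rw [hv, map_prod] at hxv
    have h1 := Finset.prod_ne_zero_iff.1 hxv p hp
    rwa [eval_hmg_one p x hx1] at h1
  have hpd : ¬ P ∣ pderiv 0 P := Pool.Agent.H8.HX.not_dvd_pderiv hP.mon hP.irr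
  have hjm : ¬ P ∣ (jm P (it F k)).det := hJPR ν r (d ^ k) Qb P (it F k) hP (by omega) hFk hsk
  obtain ⟨W, hW⟩ : ∃ W : Po (ν + 2) Qb, W = Δ * pderiv 0 P * ((jm P (it F k)).det * v) := ⟨_, rfl⟩
  have hPW : ¬ P ∣ W := by
    rw [hW]
    intro h
    rcases hpr.dvd_or_dvd h with h | h
    · exact (hpr.dvd_or_dvd h).elim hB.ne hpd
    · exact (hpr.dvd_or_dvd h).elim hjm hPv
  obtain ⟨c', A', hc'0, hc'⟩ := Pool.Agent.H18.HX.All.nrx (ν + 1) Qb P W hP.irr hP.mon hPW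
  obtain ⟨x, K₀, F', hKfin, hKF, hxP, hxk, hxb, hx1, hxg, hVp, hVt, hxV, hgrow⟩ :=
    hmain E θ Δ hB hcv (g₁ * c') (mul_ne_zero hg₁ hc'0)
  have hxg' : eval (x 0) (up g₁) ≠ 0 ∧ eval (x 0) (up c') ≠ 0 := by
    have h1 : eval (x 0) (up (g₁ * c')) = eval (x 0) (up g₁) * eval (x 0) (up c') := by
      rw [up, up, up, map_mul, map_mul]
    rw [h1] at hxg
    exact ⟨left_ne_zero_of_mul hxg, right_ne_zero_of_mul hxg⟩
  obtain ⟨hxg₁, hxc'⟩ := hxg'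
  have hxW : eval (x 0) W ≠ 0 := by
    intro h0
    apply hxc'
    obtain ⟨B', hB'⟩ := hc'
    have h1 := congrArg (eval (x 0)) hB'
    rw [map_sub, map_mul, map_mul (eval (x 0)) P, hxP, h0, zero_mul, zero_mul, sub_zero] at h1
    exact h1
  rw [hW, map_mul, map_mul, map_mul] at hxW
  have hxΔ := left_ne_zero_of_mul (left_ne_zero_of_mul hxW)
  have hxpd := right_ne_zero_of_mul (left_ne_zero_of_mul hxW)
  have hxjm := left_ne_zero_of_mul (right_ne_zero_of_mul hxW)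
  have hxv := right_ne_zero_of_mul (right_ne_zero_of_mul hxW)
  obtain ⟨V, hV⟩ : ∃ V, V = van (it F k) (x 0) := ⟨_, rfl⟩
  have hout : ∀ q : Po (ν + 2) Qb, eval (x 0) q ≠ 0 → q ∉ V := by
    intro q hq h
    rw [hV] at h
    exact hq (h 0)
  have hzer := zer_span.mpr (hxP 0)
  have hPV : P ∈ V := by
    rw [hV]
    intro n
    exact zer_iterate hsk.inv hzer n P (Ideal.mem_span_singleton_self P)
  have hΔV : Δ ∉ V := hout Δ hxΔ
  have hHm : Hmi V := by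
    rw [hV]
    rw [hV] at hΔV
    exact Facts.cne (ν + 1) r (d ^ k) E Qb P (it F k) θ Δ (x 0) hP hD2 hFk hsk hB (hxP 0) hVp hVt
      hΔV
  refine ⟨x 0, hxP 0, hxb 0, fun q hq => ?_⟩
  have hqV : q ∈ V := by
    rw [hV]
    intro n
    rw [pmap_it_iterate]
    exact hq _
  rw [← hV] at hVp hVt hxV
  by_contra hPq
  by_cases hex : ∃ h, Pdv P V h
  · obtain ⟨h, hh⟩ := hex
    have h1 := hinv _ h hh hHm hVt
    exact hout _ hxg₁ h1
  have hiff : ∀ q, aeval (it F k) q ∈ V ↔ q ∈ V := by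
    intro q
    refine ⟨fun h => ?_, fun h => hVt.inv q h⟩
    have h1 := hVt.ind (fun i => if (i : ℕ) = 0 then q else 0) (by
      have hE1 := hB.pos
      rw [Finset.sum_eq_single (⟨0, by omega⟩ : Fin E)]
      · rw [if_pos rfl, pow_zero, one_mul]
        exact h
      · intro i _ hi
        rw [if_neg (fun h0 => hi (Fin.ext h0)), map_zero, mul_zero]
      · intro h0
        exact absurd (Finset.mem_univ _) h0) ⟨0, by have := hB.pos; omega⟩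
    simpa using h1
  have hX1V : X 1 ∉ V := hout _ (by rw [eval_X]; exact hx1 0 0)
  obtain ⟨C_V, hvsb⟩ := hVSB ν r d k E P θ Δ F V K ξ τ hν hP hF (by omega) hsl hfd hk hVp hHm hX1V
    hPV ⟨q, hqV, hPq⟩ hex hiff hB hΔV hVt (hout _ hxpd) (hout _ hxjm)
  -- the number of steps
  have hce : 1 < c * e := by
    calc (1 : ℝ) < c := hc1
      _ = c * 1 := (mul_one c).symm
      _ ≤ c * e := mul_le_mul_of_nonneg_left he1 hc0.le
  obtain ⟨l, hl⟩ := exists_l (C_V * C) (pow_nonneg hμ' k)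
    (pow_lt_pow_left₀ hcμ hμ' (by omega : k ≠ 0)) (one_lt_pow₀ hce (by omega : k ≠ 0))
  obtain ⟨B, hBdef⟩ : ∃ B : ℕ, B = ⌊C * μ' ^ (k * l)⌋₊ := ⟨_, rfl⟩
  have hBle : (B : ℝ) ≤ C * μ' ^ (k * l) := by
    rw [hBdef]
    exact Nat.floor_le ((Nat.cast_nonneg _).trans (hup (k * l) 0))
  obtain ⟨u₂, A, hu₂, hvsb'⟩ := hvsb l B fun s => by
    rw [hBdef]
    exact Nat.le_floor (hup (k * l) s)
  obtain ⟨u₁, hu₁, -, htre⟩ := hTRE ν (d ^ k) E (e ^ k) Qb P θ Δ v (it F k) V hVp (by omega) hFk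
    hHm hX1V hPV hiff hB hΔV hVt hE2 (hout _ hxv) ⟨_, hvhom⟩ l
  -- the field
  obtain ⟨S, hS⟩ : ∃ S : Finset Qb, S = A ∪ (P.coeffs ∪ T'.biUnion fun p => p.coeffs) := ⟨_, rfl⟩
  obtain ⟨K₁, hK₁⟩ : ∃ K₁, K₁ = K₀ ⊔ IntermediateField.adjoin ℚ (S : Set Qb) := ⟨_, rfl⟩
  have hle : K₀ ≤ K₁ := by
    rw [hK₁]
    exact le_sup_left
  have hfin1 : FiniteDimensional ℚ K₁ := by
    rw [hK₁]
    have := hKfin
    have : FiniteDimensional ℚ (IntermediateField.adjoin ℚ (S : Set Qb)) :=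
      IntermediateField.finiteDimensional_adjoin fun x _ =>
        (Algebra.IsAlgebraic.isAlgebraic (R := ℚ) x).isIntegral
    exact IntermediateField.finiteDimensional_sup K₀ (IntermediateField.adjoin ℚ (S : Set Qb))
  have hSK : ∀ a ∈ S, a ∈ K₁ := by
    intro a ha
    rw [hK₁]
    exact (le_sup_right : IntermediateField.adjoin ℚ (S : Set Qb) ≤ _)
      (IntermediateField.subset_adjoin ℚ _ ha)
  simp only [hS, Finset.mem_union] at hSK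
  have hKF1 : ∀ i, ∀ c ∈ (F i).coeffs, c ∈ K₁ := fun i c hc => hle (hKF i c hc)
  obtain ⟨F₁, r₁, hr₁, hconv⟩ := hCNV K₀ K₁ F' hle hfin1
  obtain ⟨cV, hcV⟩ := hvsb' K₁ F₁ fun a ha => hSK a (Or.inl ha)
  obtain ⟨C₀, hC₀, htwr⟩ := hTWR ν r d k (e ^ k) l P v F V κ' β' (c ^ k) T' hP hF hPV
    (Nat.one_le_pow _ _ (by omega)) (one_le_pow₀ hc1.le) hκc' hβ' hβκ' hrec' hvT K₁ F₁ hKF1
    (fun p hp a ha => hSK a (Or.inr (Or.inr (Finset.mem_biUnion.2 ⟨p, hp, ha⟩))))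
    (fun a ha => hSK a (Or.inr (Or.inl ha)))
  -- the point of the backward orbit
  have hκ2 : 1 < κ / 2 := by linarith
  obtain ⟨N₁, hN₁⟩ := pow_unbounded_of_one_lt (max C₀ cV) hκ2
  obtain ⟨N', hN', hyu⟩ := Pool.Agent.H2.EDV.hit_inf_it hxk (q := u₁ * u₂)
    (by
      rw [← hV]
      exact fun h => (hVp.mem_or_mem h).elim hu₁ hu₂) (N₁ + 2)
  obtain ⟨N, hN⟩ : ∃ N : ℕ, N' = N + 1 := ⟨N' - 1, by omega⟩
  rw [hN, map_mul] at hyu
  obtain ⟨y, hy⟩ : ∃ y, y = x (N + 1) := ⟨_, rfl⟩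
  have hyu₁ : eval y u₁ ≠ 0 := by
    rw [hy]
    exact left_ne_zero_of_mul hyu
  have hyu₂ : eval y u₂ ≠ 0 := by
    rw [hy]
    exact right_ne_zero_of_mul hyu
  have hyV : Zer V y := by
    rw [hy]
    exact hxV (N + 1)
  have hy1 : y 1 ≠ 0 := by
    rw [hy]
    exact hx1 (N + 1) 0
  have hky : pmap (it F k) y = x N := by
    rw [pmap_it, hy]
    exact hxk N
  obtain ⟨Tr₀, hTr₀⟩ := htre y hyV hy1 hyu₁
  have hTr := hTr₀.trunc
  obtain ⟨Tr, hTrdef⟩ : ∃ Tr : ℕ → Finset (Fin (ν + 2) → Qb),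
    Tr = fun i => if i ≤ l then Tr₀ i else ∅ := ⟨_, rfl⟩
  rw [← hTrdef] at hTr
  obtain ⟨Z, hZ⟩ : ∃ Z : Finset Qb, Z = (Finset.univ.image (x (N + 2)) ∪
    (Finset.range (l + 1)).biUnion fun i => (Tr i).biUnion fun z => Finset.univ.image z) :=
    ⟨_, rfl⟩
  obtain ⟨Γ₀, L₀, hL₀, hΓ₀⟩ := hGAL K₀ Z
  obtain ⟨Γ₁, L₁, hL₁, hΓ₁⟩ := hGAL K₁ Z
  have hxZ : ∀ i, x (N + 2) i ∈ Z := fun i => by
    rw [hZ]
    exact Finset.mem_union_left _ (Finset.mem_image_of_mem _ (Finset.mem_univ i))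
  have hx2₀ : ∀ i, x (N + 2) i ∈ L₀ := fun i => hL₀ _ (hxZ i)
  have hx2₁ : ∀ i, x (N + 2) i ∈ L₁ := fun i => hL₁ _ (hxZ i)
  have hx1₀ : ∀ i, x (N + 1) i ∈ L₀ := by
    intro i
    rw [← hxk (N + 1)]
    exact Pool.Agent.H18.BKH.orbit_memL F hKF (x (N + 2)) hx2₀ k i
  have hx1₁ : ∀ i, x (N + 1) i ∈ L₁ := by
    intro i
    rw [← hxk (N + 1)]
    exact Pool.Agent.H18.BKH.orbit_memL F hKF1 (x (N + 2)) hx2₁ k i
  have hx0₀ : ∀ i, x N i ∈ L₀ := by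
    intro i
    rw [← hxk N]
    exact Pool.Agent.H18.BKH.orbit_memL F hKF (x (N + 1)) hx1₀ k i
  have hx0₁ : ∀ i, x N i ∈ L₁ := by
    intro i
    rw [← hxk N]
    exact Pool.Agent.H18.BKH.orbit_memL F hKF1 (x (N + 1)) hx1₁ k i
  have hTrL : ∀ i, ∀ z ∈ Tr i, ∀ s, z s ∈ L₁ := by
    intro i z hz s
    by_cases hil : i ≤ l
    · apply hL₁
      rw [hZ]
      apply Finset.mem_union_right
      exact Finset.mem_biUnion.2 ⟨i, Finset.mem_range.2 (by omega), Finset.mem_biUnion.2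
        ⟨z, hz, Finset.mem_image_of_mem _ (Finset.mem_univ s)⟩⟩
    · rw [hTrdef] at hz
      simp only [hil, if_false, Finset.notMem_empty] at hz
  have hΓ0 : (0 : ℝ) < Γ₀.card := by
    exact_mod_cast hΓ₀.ne.card_pos
  have hΓ1 : (0 : ℝ) < Γ₁.card := by
    exact_mod_cast hΓ₁.ne.card_pos
  have hr1 : (1 : ℝ) ≤ r₁ := by exact_mod_cast hr₁
  have hr10 : (0 : ℝ) < r₁ := by linarith
  have e0 := hconv (ν + 2) (af (x N)) Γ₀ L₀ Γ₁ L₁ hΓ₀ hΓ₁ (fun i => div_mem (hx0₀ i) (hx0₀ 1))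
    (fun i => div_mem (hx0₁ i) (hx0₁ 1))
  have e1 := hconv (ν + 2) (af (x (N + 1))) Γ₀ L₀ Γ₁ L₁ hΓ₀ hΓ₁
    (fun i => div_mem (hx1₀ i) (hx1₀ 1)) (fun i => div_mem (hx1₁ i) (hx1₁ 1))
  -- growth
  have g0 := (hgrow N Γ₀ L₀ (by omega) hΓ₀ hx1₀).1
  have g1 := (hgrow (N + 1) Γ₀ L₀ (by omega) hΓ₀ hx2₀).2
  have hck : c ^ k ≤ (κ / 2) ^ (k / m) := by
    have h1 : c ^ k = (c ^ m) ^ (k / m) := by
      rw [← pow_mul, Nat.mul_div_cancel' hmk]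
    rw [h1]
    exact pow_le_pow_left₀ (by positivity) (by linarith) _
  have gr0 : c ^ k * avn F₁ Γ₁ (af (pmap (it F k) y)) ≤ avn F₁ Γ₁ (af y) := by
    rw [hky, hy]
    have h1 : c ^ k * avn F' Γ₀ (af (x N)) ≤ avn F' Γ₀ (af (x (N + 1))) :=
      (mul_le_mul_of_nonneg_right hck (Pool.Agent.H18.TXB.avn_nonneg F' Γ₀ _)).trans g0
    have h2 : (0 : ℝ) ≤ r₁ * Γ₁.card := by positivity
    have h3 := mul_le_mul_of_nonneg_left h1 h2
    have h4 : Γ₀.card * (c ^ k * avn F₁ Γ₁ (af (x N))) ≤ Γ₀.card * avn F₁ Γ₁ (af (x (N + 1))) := by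
      calc Γ₀.card * (c ^ k * avn F₁ Γ₁ (af (x N))) =
            c ^ k * (Γ₀.card * avn F₁ Γ₁ (af (x N))) := by ring
        _ = r₁ * Γ₁.card * (c ^ k * avn F' Γ₀ (af (x N))) := by
            rw [e0]
            ring
        _ ≤ r₁ * Γ₁.card * avn F' Γ₀ (af (x (N + 1))) := h3
        _ = _ := by
            rw [e1]
            ring
    exact le_of_mul_le_mul_left h4 hΓ0
  have gr1 : (κ / 2) ^ N * Γ₁.card ≤ avn F₁ Γ₁ (af y) := by
    rw [hy]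
    have h1 : (κ / 2) ^ N * Γ₀.card ≤ avn F' Γ₀ (af (x (N + 1))) := by
      have h2 : κ / 2 * ((κ / 2) ^ N * Γ₀.card) ≤ κ / 2 * avn F' Γ₀ (af (x (N + 1))) := by
        calc κ / 2 * ((κ / 2) ^ N * Γ₀.card) = (κ / 2) ^ (N + 1) * Γ₀.card := by ring
          _ ≤ _ := g1
      exact le_of_mul_le_mul_left h2 (by linarith)
    have h0 : (0 : ℝ) ≤ (κ / 2) ^ N * Γ₀.card := by positivity
    have h2 : Γ₀.card * ((κ / 2) ^ N * Γ₁.card) ≤ Γ₀.card * avn F₁ Γ₁ (af (x (N + 1))) := by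
      rw [e1]
      calc Γ₀.card * ((κ / 2) ^ N * Γ₁.card) = 1 * (Γ₁.card * ((κ / 2) ^ N * Γ₀.card)) := by ring
        _ ≤ r₁ * (Γ₁.card * avn F' Γ₀ (af (x (N + 1)))) := by
            apply mul_le_mul hr1 _ (by positivity) hr10.le
            exact mul_le_mul_of_nonneg_left h1 hΓ1.le
    exact le_of_mul_le_mul_left h2 hΓ0
  have hbig : max C₀ cV < (κ / 2) ^ N :=
    hN₁.trans_le (pow_le_pow_right₀ hκ2.le (by omega))
  have hC₀N : C₀ ≤ (κ / 2) ^ N := (le_max_left _ _).trans hbig.le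
  have hcVN : cV < (κ / 2) ^ N := (le_max_right _ _).trans_lt hbig
  have hyL : ∀ i, y i ∈ L₁ := by
    rw [hy]
    exact hx1₁
  have t1 := htwr y Tr hTr hyV hy1 (by rw [hky]; exact hx1 N 0) Γ₁ L₁ hΓ₁ hTrL hyL gr0
    ((mul_le_mul_of_nonneg_right hC₀N hΓ1.le).trans gr1) l le_rfl
  have t2 := hcV Γ₁ L₁ hΓ₁ y hyL hyV hy1 hyu₂ (Tr l) fun z hz =>
    ⟨hTrL l z hz, (hTr.mem l z hz).1, (hTr.mem l z hz).2, hTr.fib hFk hy1 l le_rfl z hz⟩
  have h0 : 0 ≤ avn F₁ Γ₁ (af y) := Pool.Agent.H18.TXB.avn_nonneg F₁ Γ₁ _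
  have hpow : (((e ^ k : ℕ) : ℝ) * c ^ k) ^ l = ((c * e) ^ k) ^ l := by
    push_cast
    rw [← mul_pow, mul_comm (e : ℝ) c]
  rw [hpow] at t1
  have hCB : (C_V : ℝ) * B ≤ C_V * C * (μ' ^ k) ^ l := by
    rw [mul_assoc, ← pow_mul]
    exact mul_le_mul_of_nonneg_left hBle (Nat.cast_nonneg _)
  have hfinal : avn F₁ Γ₁ (af y) ≤ Γ₁.card * cV := by
    have h1 : (C_V * B + 1) * avn F₁ Γ₁ (af y) ≤ ((c * e) ^ k) ^ l * avn F₁ Γ₁ (af y) :=
      mul_le_mul_of_nonneg_right (by linarith) h0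
    have h2 := h1.trans (t1.trans t2)
    rw [add_mul, one_mul] at h2
    linarith
  have hlast : (κ / 2) ^ N * Γ₁.card ≤ cV * Γ₁.card := by linarith
  exact absurd (le_of_mul_le_mul_right hlast hΓ1) (not_le.2 hcVN)

end Pool.Agent.H18.EDB
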