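import Pool.Agent.H18.EDB.Base
import Pool.Agent.H18.VZ.Facts

/-!
# Zariski dense orbits in dimension `ν` by backward heights: the row BBET
-/

set_option autoImplicit false

open MvPolynomial
open Pool.Agent.H12.ZD (pmap)
open Pool.Agent.H18.HIT Pool.Agent.H18.HX Pool.Agent.H18.VZ
open Pool.Agent.H8.ZA (HFam Const NA)
open Pool.Agent.H8.TD (lc dg Cop)
open Pool.Agent.H8.TX (hn)
open Pool.Agent.H2.ED
open Pool.Agent.H18.TE (lg Gc T_GAL)
open Pool.Agent.H18.TXB (avn T_CNV)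

namespace Pool.Agent.H18.EDB

section tree

variable {ν : ℕ} {k : Type} [Field k] {V : Ideal (Po (ν + 2) k)} {G : Tup (ν + 2) k}
  {v : Po (ν + 2) k} {e l : ℕ} {y : Fin (ν + 2) → k} {T : ℕ → Finset (Fin (ν + 2) → k)}

/-- the points of the tree are in the fibres of the iterates -/
theorem Tree.fib {D : ℕ} (hG : ∀ i, (G i).IsHomogeneous D) (h : Tree V G v e l y T)
    (hy : y 1 ≠ 0) (i : ℕ) (hi : i ≤ l) (x : Fin (ν + 2) → k) (hx : x ∈ T i) :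
    (pmap G)^[i] x 1 ≠ 0 ∧ af ((pmap G)^[i] x) = af y := by
  induction i generalizing x with
  | zero =>
    rw [h.zero, Finset.mem_singleton] at hx
    rw [hx, Function.iterate_zero, id]
    exact ⟨by rw [af_one hy]; exact one_ne_zero, af_af hy⟩
  | succ i ih =>
    obtain ⟨-, h1, h2⟩ := h.step i (by omega) x hx
    obtain ⟨h3, h4⟩ := ih (by omega) _ h2
    have h5 : ∀ z, (pmap G)^[i] z = pmap (it G i) z := fun z => (pmap_it G i z).symm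
    rw [Function.iterate_succ_apply]
    rw [h5] at h3 h4 ⊢
    rw [pmap_af_ne (it_hom hG i) h1] at h3
    rw [af_pmap (it_hom hG i) h1] at h4
    exact ⟨h3, h4⟩

/-- the empty sets in place of the levels larger than `l` -/
theorem Tree.trunc (h : Tree V G v e l y T) :
    Tree V G v e l y fun i => if i ≤ l then T i else ∅ := by
  classical
  refine ⟨?_, fun i x hx => ?_, fun i hi x hx => ?_, fun i hi z hz => ?_⟩
  · simp only [Nat.zero_le, if_true]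
    exact h.zero
  · by_cases hil : i ≤ l
    · simp only [hil, if_true] at hx
      exact h.mem i x hx
    · simp only [hil, if_false, Finset.notMem_empty] at hx
  · have h1 : i + 1 ≤ l := hi
    have h2 : i ≤ l := by omega
    simp only [h1, h2, if_true] at hx ⊢
    exact h.step i hi x hx
  · have h1 : i + 1 ≤ l := hi
    have h2 : i ≤ l := by omega
    simp only [h1, h2, if_true] at hz ⊢
    exact h.cnt i hi z hz

end tree

/-- comparison of exponential functions -/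
theorem exists_l {a b : ℝ} (R : ℝ) (ha : 0 ≤ a) (hab : a < b) (hb : 1 < b) :
    ∃ l : ℕ, R * a ^ l + 1 ≤ b ^ l := by
  have hb0 : 0 < b := by linarith
  have h1 : Filter.Tendsto (fun l : ℕ => (a / b) ^ l) Filter.atTop (nhds 0) :=
    tendsto_pow_atTop_nhds_zero_of_lt_one (by positivity) ((div_lt_one hb0).2 hab)
  have h2 : Filter.Tendsto (fun l : ℕ => (1 / b) ^ l) Filter.atTop (nhds 0) :=
    tendsto_pow_atTop_nhds_zero_of_lt_one (by positivity) ((div_lt_one hb0).2 hb)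
  have h3 := (h1.const_mul R).add h2
  rw [mul_zero, add_zero] at h3
  obtain ⟨l, hl⟩ := (h3.eventually (gt_mem_nhds one_pos)).exists
  refine ⟨l, ?_⟩
  have h4 : 0 < b ^ l := by positivity
  have h5 := mul_le_mul_of_nonneg_right hl.le h4.le
  rw [add_mul, mul_assoc, ← mul_pow, ← mul_pow, div_mul_cancel₀ _ hb0.ne',
    div_mul_cancel₀ _ hb0.ne', one_pow, one_mul] at h5
  exact h5

theorem pf_BET (hJPR : T_JPR) (hCNV : T_CNV) (hGAL : T_GAL) (hNUB : T_NUB) (hORB : T_ORB)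
    (hVSB : T_VSB) (hTRE : T_TRE) (hTWR : T_TWR) : T_BET := by
  intro ν r d e P b F K _ _ ξ τ μ μ' C hν hP hrd hd hF hsl hNI hfd he hτ hcvi hμ hμ' hμμ hlow hup
    hb hPb
  classical
  have hr : 1 ≤ r := one_le_r hP
  have hpr := hP.irr.prime
  have hprime : (Ideal.span {P} : Ideal (Po (ν + 2) Qb)).IsPrime := isPrime_span hP.irr
  have he0 : (0 : ℝ) < e := by exact_mod_cast he
  have he1 : (1 : ℝ) ≤ e := by exact_mod_cast he
  have hr0 : (0 : ℝ) < r := by exact_mod_cast hr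
  obtain ⟨c, hc1, hcμ, hnub⟩ := hNUB ν r d e P F K ξ τ μ μ' C hν hP hF hsl hfd hτ hμ hμ' hμμ hlow
    hup
  obtain ⟨m₀, hm₀⟩ := hnub ((r : ℝ) ^ ν)
  obtain ⟨m, hm⟩ : ∃ m : ℕ, m = m₀ + 1 := ⟨_, rfl⟩
  obtain ⟨⟨s, hs⟩, κ, β, T, hβ, hκc, hβκ, hT, hrec⟩ := hm₀ m (by omega)
  obtain ⟨Y, hY⟩ : ∃ Y : ℕ, Y = dgm Qb (pn τ ξ m) ξ (ν - 1) s := ⟨_, rfl⟩
  rw [← hY] at hs
  have hc0 : 0 < c := by linarith
  have hcm : 1 < c ^ m := one_lt_pow₀ hc1 (by omega)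
  have hρ : c ^ m ≤ (Y : ℝ) / ((r : ℝ) ^ ν * (e : ℝ) ^ m) := by
    rw [le_div_iff₀ (by positivity)]
    calc c ^ m * ((r : ℝ) ^ ν * (e : ℝ) ^ m) = (r : ℝ) ^ ν * (c * e) ^ m := by
          rw [mul_pow]
          ring
      _ ≤ Y := hs
  have hY1 : 1 ≤ Y := by
    rw [Nat.one_le_iff_ne_zero]
    rintro rfl
    rw [Nat.cast_zero, zero_div] at hρ
    linarith
  have hκ : 2 < κ := by linarith
  have hκ0 : 0 < κ := by linarith
  obtain ⟨k, hk, hmk, hmain⟩ := hORB ν r d e m Y P b F K ξ τ κ β T s (by omega) hP hrd hF hsl hfd he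
    hτ (by omega) hY1 hY.le hβ hκ
    (by
      refine hβκ.trans ?_
      rw [pow_two]
      exact mul_le_mul_of_nonneg_left (by linarith) hκ0.le)
    (hβκ.trans (mul_le_mul_of_nonneg_left hρ hκ0.le)) hT hrec hb hPb
  have hmk' : m ≤ k := Nat.le_of_dvd (by omega) hmk
  obtain ⟨-, κ', β', T', hβ', hκc', hβκ', hT', hrec'⟩ := hm₀ k (by omega)
  have hsk := hsl.it k
  obtain ⟨E, θ, Δ, hB, hcv⟩ := Facts.bas (ν + 1) Qb P (it F k) hP.irr hP.mon hsk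
  have hNT : NIv P (it F k) := Facts.niv (ν + 1) r d k Qb P F hP hF hsl hk hNI
  have hFk : ∀ i, (it F k i).IsHomogeneous (d ^ k) := it_hom hF k
  have hD2 : 2 ≤ d ^ k := hd.trans (Nat.le_self_pow (by omega) d)
  -- the degree
  have hE2 : d ^ k * e ^ k ≤ E := by
    have h1 := Pool.Agent.H18.HX.All.cni (ν + 2) Qb (Ideal.span {P}) F (d * e) k hsl hcvi
    rw [mul_pow] at h1
    refine Pool.Agent.H18.HX.All.cdv (ν + 2) (d ^ k * e ^ k) E Qb (Ideal.span {P}) (it F k) θ h1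
      hB.pos fun u => ?_
    obtain ⟨M, c, hc⟩ := hB.gen u
    refine ⟨Δ ^ M, c, ?_, ?_⟩
    · rw [Ideal.mem_span_singleton]
      exact fun h => hB.ne (hpr.dvd_of_dvd_pow h)
    · rw [Ideal.mem_span_singleton, map_pow]
      exact hc
  obtain ⟨g₁, hg₁, hinv⟩ := Facts.inv (ν + 1) r (d ^ k) E Qb P (it F k) θ Δ hP hFk hsk hB hNT
  -- the polynomials which do not vanish at the point
  obtain ⟨v, hv⟩ : ∃ v : Po (ν + 2) Qb, v = ∏ p ∈ T', hmg p := ⟨_, rfl⟩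
  have hvhom : v.IsHomogeneous (∑ p ∈ T', p.totalDegree) := by
    rw [hv]
    exact IsHomogeneous.prod _ _ _ fun p _ => hmg_hom p
  have hPv : ¬ P ∣ v := by
    rw [hv]
    intro h
    obtain ⟨p, hp, hPp⟩ := (Prime.dvd_finsetProd_iff hpr _).1 h
    apply hT' p hp
    rw [← aeval_hmg p ξ hfd.gp.one]
    exact aeval_dvd hfd.gp hP hPp
  have hvT : ∀ x : Fin (ν + 2) → Qb, x 1 = 1 → eval x v ≠ 0 → ∀ p ∈ T', eval x p ≠ 0 := by
    intro x hx1 hxv p hp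
    rw [hv, map_prod] at hxv
    have h1 := Finset.prod_ne_zero_iff.1 hxv p hp
    rwa [eval_hmg_one p x hx1] at h1
  have hpd : ¬ P ∣ pderiv 0 P := Pool.Agent.H8.HX.not_dvd_pderiv hP.mon hP.irr
  have hjm : ¬ P ∣ (jm P (it F k)).det := hJPR ν r (d ^ k) Qb P (it F k) hP (by omega) hFk hsk
  obtain ⟨W, hW⟩ : ∃ W : Po (ν + 2) Qb, W = Δ * pderiv 0 P * ((jm P (it F k)).det * v) := ⟨_, rfl⟩
  have hPW : ¬ P ∣ W := by
    rw [hW]
    intro h
    rcases hpr.dvd_or_dvd h with h | h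
    · exact (hpr.dvd_or_dvd h).elim hB.ne hpd
    · exact (hpr.dvd_or_dvd h).elim hjm hPv
  obtain ⟨c', A', hc'0, hc'⟩ := Pool.Agent.H18.HX.All.nrx (ν + 1) Qb P W hP.irr hP.mon hPW
  obtain ⟨x, K₀, F', hKfin, hKF, hxP, hxk, hxb, hx1, hxg, hVp, hVt, hxV, hfinV, hgrow⟩ :=
    hmain E θ Δ hB hcv (g₁ * c') (mul_ne_zero hg₁ hc'0)
  have hxg' : eval (x 0) (up g₁) ≠ 0 ∧ eval (x 0) (up c') ≠ 0 := by
    have h1 : eval (x 0) (up (g₁ * c')) = eval (x 0) (up g₁) * eval (x 0) (up c') := by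
      rw [up, up, up, map_mul, map_mul]
    rw [h1] at hxg
    exact ⟨left_ne_zero_of_mul hxg, right_ne_zero_of_mul hxg⟩
  obtain ⟨hxg₁, hxc'⟩ := hxg'
  have hxW : eval (x 0) W ≠ 0 := by
    intro h0
    apply hxc'
    obtain ⟨B', hB'⟩ := hc'
    have h1 := congrArg (eval (x 0)) hB'
    rw [map_sub, map_mul, map_mul (eval (x 0)) P, hxP, h0, zero_mul, zero_mul, sub_zero] at h1
    exact h1
  rw [hW, map_mul, map_mul, map_mul] at hxW
  have hxΔ := left_ne_zero_of_mul (left_ne_zero_of_mul hxW)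
  have hxpd := right_ne_zero_of_mul (left_ne_zero_of_mul hxW)
  have hxjm := left_ne_zero_of_mul (right_ne_zero_of_mul hxW)
  have hxv := right_ne_zero_of_mul (right_ne_zero_of_mul hxW)
  obtain ⟨V, hV⟩ : ∃ V, V = van (it F k) (x 0) := ⟨_, rfl⟩
  have hout : ∀ q : Po (ν + 2) Qb, eval (x 0) q ≠ 0 → q ∉ V := by
    intro q hq h
    rw [hV] at h
    exact hq (h 0)
  have hzer := zer_span.mpr (hxP 0)
  have hPV : P ∈ V := by
    rw [hV]
    intro n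
    exact zer_iterate hsk.inv hzer n P (Ideal.mem_span_singleton_self P)
  have hΔV : Δ ∉ V := hout Δ hxΔ
  have hHm : Hmi V := by
    rw [hV]
    rw [hV] at hΔV
    exact Facts.cne (ν + 1) r (d ^ k) E Qb P (it F k) θ Δ (x 0) hP hD2 hFk hsk hB (hxP 0) hVp hVt
      hΔV
  refine ⟨x 0, hxP 0, hxb 0, fun q hq => ?_⟩
  have hqV : q ∈ V := by
    rw [hV]
    intro n
    rw [pmap_it_iterate]
    exact hq _
  rw [← hV] at hVp hVt hxV hfinV
  by_contra hPq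
  by_cases hex : ∃ h, Pdv P V h
  · obtain ⟨h, hh⟩ := hex
    have h1 := hinv _ h hh hHm hVt
    exact hout _ hxg₁ h1
  have hiff : ∀ q, aeval (it F k) q ∈ V ↔ q ∈ V := by
    intro q
    refine ⟨fun h => ?_, fun h => hVt.inv q h⟩
    have h1 := hVt.ind (fun i => if (i : ℕ) = 0 then q else 0) (by
      have hE1 := hB.pos
      rw [Finset.sum_eq_single (⟨0, by omega⟩ : Fin E)]
      · rw [if_pos rfl, pow_zero, one_mul]
        exact h
      · intro i _ hi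
        rw [if_neg (fun h0 => hi (Fin.ext h0)), map_zero, mul_zero]
      · intro h0
        exact absurd (Finset.mem_univ _) h0) ⟨0, by have := hB.pos; omega⟩
    simpa using h1
  have hX1V : X 1 ∉ V := hout _ (by rw [eval_X]; exact hx1 0 0)
  obtain ⟨C_V, hvsb⟩ := hVSB ν r d k E P θ Δ F V K ξ τ hν hP hF (by omega) hsl hfd hk hVp hHm hX1V
    hPV ⟨q, hqV, hPq⟩ hex hiff hB hΔV hVt (hout _ hxpd) (hout _ hxjm)
  -- the number of steps
  have hce : 1 < c * e := by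
    calc (1 : ℝ) < c := hc1
      _ = c * 1 := (mul_one c).symm
      _ ≤ c * e := mul_le_mul_of_nonneg_left he1 hc0.le
  obtain ⟨l, hl⟩ := exists_l (C_V * C) (pow_nonneg hμ' k)
    (pow_lt_pow_left₀ hcμ hμ' (by omega : k ≠ 0)) (one_lt_pow₀ hce (by omega : k ≠ 0))
  obtain ⟨B, hBdef⟩ : ∃ B : ℕ, B = ⌊C * μ' ^ (k * l)⌋₊ := ⟨_, rfl⟩
  have hBle : (B : ℝ) ≤ C * μ' ^ (k * l) := by
    rw [hBdef]
    exact Nat.floor_le ((Nat.cast_nonneg _).trans (hup (k * l) 0))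
  obtain ⟨u₂, A, hu₂, hvsb'⟩ := hvsb l B fun s => by
    rw [hBdef]
    exact Nat.le_floor (hup (k * l) s)
  obtain ⟨u₁, hu₁, -, htre⟩ := hTRE ν (d ^ k) E (e ^ k) Qb P θ Δ v (it F k) V hVp (by omega) hFk
    hHm hX1V hPV hiff hB hΔV hVt hE2 (hout _ hxv) ⟨_, hvhom⟩ l
  -- the field
  obtain ⟨S, hS⟩ : ∃ S : Finset Qb, S = A ∪ (P.coeffs ∪ T'.biUnion fun p => p.coeffs) := ⟨_, rfl⟩
  obtain ⟨K₁, hK₁⟩ : ∃ K₁, K₁ = K₀ ⊔ IntermediateField.adjoin ℚ (S : Set Qb) := ⟨_, rfl⟩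
  have hle : K₀ ≤ K₁ := by
    rw [hK₁]
    exact le_sup_left
  have hfin1 : FiniteDimensional ℚ K₁ := by
    rw [hK₁]
    have := hKfin
    have : FiniteDimensional ℚ (IntermediateField.adjoin ℚ (S : Set Qb)) :=
      IntermediateField.finiteDimensional_adjoin fun x _ =>
        (Algebra.IsAlgebraic.isAlgebraic (R := ℚ) x).isIntegral
    exact IntermediateField.finiteDimensional_sup K₀ (IntermediateField.adjoin ℚ (S : Set Qb))
  have hSK : ∀ a ∈ S, a ∈ K₁ := by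
    intro a ha
    rw [hK₁]
    exact (le_sup_right : IntermediateField.adjoin ℚ (S : Set Qb) ≤ _)
      (IntermediateField.subset_adjoin ℚ _ ha)
  simp only [hS, Finset.mem_union] at hSK
  have hKF1 : ∀ i, ∀ c ∈ (F i).coeffs, c ∈ K₁ := fun i c hc => hle (hKF i c hc)
  obtain ⟨F₁, r₁, hr₁, hconv⟩ := hCNV K₀ K₁ F' hle hfin1
  obtain ⟨cV, hcV⟩ := hvsb' K₁ F₁ fun a ha => hSK a (Or.inl ha)
  obtain ⟨C₀, hC₀, htwr⟩ := hTWR ν r d k (e ^ k) l P v F V κ' β' (c ^ k) T' hP hF hPV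
    (Nat.one_le_pow _ _ (by omega)) (one_le_pow₀ hc1.le) hκc' hβ' hβκ' hrec' hvT K₁ F₁ hKF1
    (fun p hp a ha => hSK a (Or.inr (Or.inr (Finset.mem_biUnion.2 ⟨p, hp, ha⟩))))
    (fun a ha => hSK a (Or.inr (Or.inl ha)))
  -- the point of the backward orbit
  have hκ2 : 1 < κ / 2 := by linarith
  obtain ⟨N₁, hN₁⟩ := pow_unbounded_of_one_lt (max C₀ cV) hκ2
  obtain ⟨N₂, hN₂⟩ := (hfinV u₁ hu₁).bddAbove
  obtain ⟨N₃, hN₃⟩ := (hfinV u₂ hu₂).bddAbove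
  obtain ⟨N, hN⟩ : ∃ N : ℕ, N = N₁ + N₂ + N₃ + 1 := ⟨_, rfl⟩
  obtain ⟨y, hy⟩ : ∃ y, y = x (N + 1) := ⟨_, rfl⟩
  have hyu₁ : eval y u₁ ≠ 0 := by
    intro h0
    rw [hy] at h0
    have := hN₂ (show N + 1 ∈ {j | eval (x j) u₁ = 0} from h0)
    omega
  have hyu₂ : eval y u₂ ≠ 0 := by
    intro h0
    rw [hy] at h0
    have := hN₃ (show N + 1 ∈ {j | eval (x j) u₂ = 0} from h0)
    omega
  have hyV : Zer V y := by
    rw [hy]
    exact hxV (N + 1)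
  have hy1 : y 1 ≠ 0 := by
    rw [hy]
    exact hx1 (N + 1) 0
  have hky : pmap (it F k) y = x N := by
    rw [pmap_it, hy]
    exact hxk N
  obtain ⟨Tr₀, hTr₀⟩ := htre y hyV hy1 hyu₁
  have hTr := hTr₀.trunc
  obtain ⟨Tr, hTrdef⟩ : ∃ Tr : ℕ → Finset (Fin (ν + 2) → Qb),
    Tr = fun i => if i ≤ l then Tr₀ i else ∅ := ⟨_, rfl⟩
  rw [← hTrdef] at hTr
  obtain ⟨Z, hZ⟩ : ∃ Z : Finset Qb, Z = (Finset.univ.image (x (N + 2)) ∪
    (Finset.range (l + 1)).biUnion fun i => (Tr i).biUnion fun z => Finset.univ.image z) :=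
    ⟨_, rfl⟩
  obtain ⟨Γ₀, L₀, hL₀, hΓ₀⟩ := hGAL K₀ Z
  obtain ⟨Γ₁, L₁, hL₁, hΓ₁⟩ := hGAL K₁ Z
  have hxZ : ∀ i, x (N + 2) i ∈ Z := fun i => by
    rw [hZ]
    exact Finset.mem_union_left _ (Finset.mem_image_of_mem _ (Finset.mem_univ i))
  have hx2₀ : ∀ i, x (N + 2) i ∈ L₀ := fun i => hL₀ _ (hxZ i)
  have hx2₁ : ∀ i, x (N + 2) i ∈ L₁ := fun i => hL₁ _ (hxZ i)
  have hx1₀ : ∀ i, x (N + 1) i ∈ L₀ := by
    intro i
    rw [← hxk (N + 1)]
    exact Pool.Agent.H18.BKH.orbit_memL F hKF (x (N + 2)) hx2₀ k i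
  have hx1₁ : ∀ i, x (N + 1) i ∈ L₁ := by
    intro i
    rw [← hxk (N + 1)]
    exact Pool.Agent.H18.BKH.orbit_memL F hKF1 (x (N + 2)) hx2₁ k i
  have hx0₀ : ∀ i, x N i ∈ L₀ := by
    intro i
    rw [← hxk N]
    exact Pool.Agent.H18.BKH.orbit_memL F hKF (x (N + 1)) hx1₀ k i
  have hx0₁ : ∀ i, x N i ∈ L₁ := by
    intro i
    rw [← hxk N]
    exact Pool.Agent.H18.BKH.orbit_memL F hKF1 (x (N + 1)) hx1₁ k i
  have hTrL : ∀ i, ∀ z ∈ Tr i, ∀ s, z s ∈ L₁ := by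
    intro i z hz s
    by_cases hil : i ≤ l
    · apply hL₁
      rw [hZ]
      apply Finset.mem_union_right
      exact Finset.mem_biUnion.2 ⟨i, Finset.mem_range.2 (by omega), Finset.mem_biUnion.2
        ⟨z, hz, Finset.mem_image_of_mem _ (Finset.mem_univ s)⟩⟩
    · rw [hTrdef] at hz
      simp only [hil, if_false, Finset.notMem_empty] at hz
  have hΓ0 : (0 : ℝ) < Γ₀.card := by
    exact_mod_cast hΓ₀.ne.card_pos
  have hΓ1 : (0 : ℝ) < Γ₁.card := by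
    exact_mod_cast hΓ₁.ne.card_pos
  have hr1 : (1 : ℝ) ≤ r₁ := by exact_mod_cast hr₁
  have hr10 : (0 : ℝ) < r₁ := by linarith
  have e0 := hconv (ν + 2) (af (x N)) Γ₀ L₀ Γ₁ L₁ hΓ₀ hΓ₁ (fun i => div_mem (hx0₀ i) (hx0₀ 1))
    (fun i => div_mem (hx0₁ i) (hx0₁ 1))
  have e1 := hconv (ν + 2) (af (x (N + 1))) Γ₀ L₀ Γ₁ L₁ hΓ₀ hΓ₁
    (fun i => div_mem (hx1₀ i) (hx1₀ 1)) (fun i => div_mem (hx1₁ i) (hx1₁ 1))
  -- growth
  have g0 := (hgrow N Γ₀ L₀ (by omega) hΓ₀ hx1₀).1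
  have g1 := (hgrow (N + 1) Γ₀ L₀ (by omega) hΓ₀ hx2₀).2
  have hck : c ^ k ≤ (κ / 2) ^ (k / m) := by
    have h1 : c ^ k = (c ^ m) ^ (k / m) := by
      rw [← pow_mul, Nat.mul_div_cancel' hmk]
    rw [h1]
    exact pow_le_pow_left₀ (by positivity) (by linarith) _
  have gr0 : c ^ k * avn F₁ Γ₁ (af (pmap (it F k) y)) ≤ avn F₁ Γ₁ (af y) := by
    rw [hky, hy]
    have h1 : c ^ k * avn F' Γ₀ (af (x N)) ≤ avn F' Γ₀ (af (x (N + 1))) :=
      (mul_le_mul_of_nonneg_right hck (Pool.Agent.H18.TXB.avn_nonneg F' Γ₀ _)).trans g0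
    have h2 : (0 : ℝ) ≤ r₁ * Γ₁.card := by positivity
    have h3 := mul_le_mul_of_nonneg_left h1 h2
    have h4 : Γ₀.card * (c ^ k * avn F₁ Γ₁ (af (x N))) ≤ Γ₀.card * avn F₁ Γ₁ (af (x (N + 1))) := by
      calc Γ₀.card * (c ^ k * avn F₁ Γ₁ (af (x N))) =
            c ^ k * (Γ₀.card * avn F₁ Γ₁ (af (x N))) := by ring
        _ = r₁ * Γ₁.card * (c ^ k * avn F' Γ₀ (af (x N))) := by
            rw [e0]
            ring
        _ ≤ r₁ * Γ₁.card * avn F' Γ₀ (af (x (N + 1))) := h3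
        _ = _ := by
            rw [e1]
            ring
    exact le_of_mul_le_mul_left h4 hΓ0
  have gr1 : (κ / 2) ^ N * Γ₁.card ≤ avn F₁ Γ₁ (af y) := by
    rw [hy]
    have h1 : (κ / 2) ^ N * Γ₀.card ≤ avn F' Γ₀ (af (x (N + 1))) := by
      have h2 : κ / 2 * ((κ / 2) ^ N * Γ₀.card) ≤ κ / 2 * avn F' Γ₀ (af (x (N + 1))) := by
        calc κ / 2 * ((κ / 2) ^ N * Γ₀.card) = (κ / 2) ^ (N + 1) * Γ₀.card := by ring
          _ ≤ _ := g1
      exact le_of_mul_le_mul_left h2 (by linarith)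
    have h0 : (0 : ℝ) ≤ (κ / 2) ^ N * Γ₀.card := by positivity
    have h2 : Γ₀.card * ((κ / 2) ^ N * Γ₁.card) ≤ Γ₀.card * avn F₁ Γ₁ (af (x (N + 1))) := by
      rw [e1]
      calc Γ₀.card * ((κ / 2) ^ N * Γ₁.card) = 1 * (Γ₁.card * ((κ / 2) ^ N * Γ₀.card)) := by ring
        _ ≤ r₁ * (Γ₁.card * avn F' Γ₀ (af (x (N + 1)))) := by
            apply mul_le_mul hr1 _ (by positivity) hr10.le
            exact mul_le_mul_of_nonneg_left h1 hΓ1.le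
    exact le_of_mul_le_mul_left h2 hΓ0
  have hbig : max C₀ cV < (κ / 2) ^ N :=
    hN₁.trans_le (pow_le_pow_right₀ hκ2.le (by omega))
  have hC₀N : C₀ ≤ (κ / 2) ^ N := (le_max_left _ _).trans hbig.le
  have hcVN : cV < (κ / 2) ^ N := (le_max_right _ _).trans_lt hbig
  have hyL : ∀ i, y i ∈ L₁ := by
    rw [hy]
    exact hx1₁
  have t1 := htwr y Tr hTr hyV hy1 (by rw [hky]; exact hx1 N 0) Γ₁ L₁ hΓ₁ hTrL hyL gr0
    ((mul_le_mul_of_nonneg_right hC₀N hΓ1.le).trans gr1) l le_rfl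
  have t2 := hcV Γ₁ L₁ hΓ₁ y hyL hyV hy1 hyu₂ (Tr l) fun z hz =>
    ⟨hTrL l z hz, (hTr.mem l z hz).1, (hTr.mem l z hz).2, hTr.fib hFk hy1 l le_rfl z hz⟩
  have h0 : 0 ≤ avn F₁ Γ₁ (af y) := Pool.Agent.H18.TXB.avn_nonneg F₁ Γ₁ _
  have hpow : (((e ^ k : ℕ) : ℝ) * c ^ k) ^ l = ((c * e) ^ k) ^ l := by
    push_cast
    rw [← mul_pow, mul_comm (e : ℝ) c]
  rw [hpow] at t1
  have hCB : (C_V : ℝ) * B ≤ C_V * C * (μ' ^ k) ^ l := by
    rw [mul_assoc, ← pow_mul]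
    exact mul_le_mul_of_nonneg_left hBle (Nat.cast_nonneg _)
  have hfinal : avn F₁ Γ₁ (af y) ≤ Γ₁.card * cV := by
    have h1 : (C_V * B + 1) * avn F₁ Γ₁ (af y) ≤ ((c * e) ^ k) ^ l * avn F₁ Γ₁ (af y) :=
      mul_le_mul_of_nonneg_right (by linarith) h0
    have h2 := h1.trans (t1.trans t2)
    rw [add_mul, one_mul] at h2
    linarith
  have hlast : (κ / 2) ^ N * Γ₁.card ≤ cV * Γ₁.card := by linarith
  exact absurd (le_of_mul_le_mul_right hlast hΓ1) (not_le.2 hcVN)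

end Pool.Agent.H18.EDB
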