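import Pool.Agent.H18.EDB.Orb1

/-!
# Zariski dense orbits in dimension `ν` by backward heights: the row BORB
-/

set_option autoImplicit false

open MvPolynomial
open Pool.Agent.H12.ZD (pmap)
open Pool.Agent.H18.HIT Pool.Agent.H18.HX Pool.Agent.H18.VZ
open Pool.Agent.H8.ZA (HFam Const NA)
open Pool.Agent.H8.TD (lc dg Cop)
open Pool.Agent.H2.ED
open Pool.Agent.H18.TE (lg Gc T_GAL T_FIX T_EQD T_HLN)
open Pool.Agent.H18.TXB (avn T_LFG)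

namespace Pool.Agent.H18.EDB

theorem pf_ORB (hFIX : T_FIX) (hEQD : T_EQD) (hHLN : T_HLN) (hLFG : T_LFG) (hHTN : T_HTN)
    (hEQN : T_EQN) (hCOF : T_COF) : T_ORB := by
  intro ν r d e m Y P b F K _ _ ξ τ κ β T s hν hP hrd hF hsl hfd he hτ hm hY hYs hβ hκ hβκ hβρ hT
    hrec hb hPb
  classical
  have hpr := hP.irr.prime
  have hX1 : ¬ P ∣ (X 1 : Po (ν + 2) Qb) := not_dvd_X1 hP
  obtain ⟨E₁, Y', Cf, s₀, hE₁, hCf, hcop, hC0, hirr, hEY, hrel⟩ :=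
    hEQN ν r d e m P F K ξ τ Y s hν hP hF hsl hfd hτ he hYs hY
  have hρ : 0 < (Y : ℝ) / ((r : ℝ) ^ ν * (e : ℝ) ^ m) := by
    have h1 : (0 : ℝ) < e := by exact_mod_cast he
    have h2 : (0 : ℝ) < Y := by exact_mod_cast hY
    have h3 : (0 : ℝ) < r := by exact_mod_cast one_le_r hP
    positivity
  obtain ⟨b₁, hb₁⟩ : ∃ b₁ : Po (ν + 2) Qb, b₁ = ∏ p ∈ T, hmg p := ⟨_, rfl⟩
  have hb₁hom : b₁.IsHomogeneous (∑ p ∈ T, p.totalDegree) := by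
    rw [hb₁]
    exact IsHomogeneous.prod _ _ _ fun p _ => hmg_hom p
  have hPb₁ : ¬ P ∣ b₁ := by
    rw [hb₁]
    intro h
    obtain ⟨p, hp, hPp⟩ := (Prime.dvd_finsetProd_iff hpr _).1 h
    apply hT p hp
    rw [← aeval_hmg p ξ hfd.gp.one]
    exact aeval_dvd hfd.gp hP hPp
  obtain ⟨mb, hmb⟩ := hb
  obtain ⟨k, α, ϖ, hk, hmk, hϖ, hcol⟩ := hCOF (ν + 1) r d m P (b * X 1 * b₁) F (by omega) hm hP
    hrd hF hsl ⟨_, (hmb.mul (isHomogeneous_X _ _)).mul hb₁hom⟩ (fun h => (hpr.dvd_or_dvd h).elim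
      (fun h => (hpr.dvd_or_dvd h).elim hPb hX1) hPb₁)
  refine ⟨k, hk, hmk, fun E θ Δ hB hcv g hg => ?_⟩
  have hk₀ : k = k / m * m := (Nat.div_mul_cancel hmk).symm
  have hmk' : m ≤ k := Nat.le_of_dvd (by omega) hmk
  have hk₀1 : 1 ≤ k / m := (Nat.one_le_div_iff (by omega)).2 hmk'
  obtain ⟨x, K₀, F', hKfin, hKF, -, -, hxP, hxk, hxb, hx1, hxg, hVp, hVt, hxV, hfin, hgr⟩ :=
    pointB hFIX hEQD hHLN hHTN hLFG (by omega) (b := b) (m := m) (k := k) (k₀ := k / m)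
      (l := k - m) (E := E) (θ := θ) hP hF hsl hβ hκ hβκ hβρ hρ hb₁ hrec hE₁ hCf hcop hC0 hirr hEY
      hk₀ hk₀1 (by omega)
      (by
        have h1 := eq_poly hP hF hsl hfd hCf (eq_shift hfd hrel) (k - m)
        rw [Nat.add_sub_cancel' hmk'] at h1
        exact h1)
      hϖ hg (hcol E θ Δ hB hcv)
  exact ⟨x, K₀, F', hKfin, hKF, hxP, hxk, hxb, hx1, hxg, hVp, hVt, hxV, hfin, hgr⟩

end Pool.Agent.H18.EDB
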