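import Pool.Agent.H18.EDB.Line
import Pool.Agent.H18.TXB.Core1

/-!
# Zariski dense orbits in dimension `ν` by backward heights: the backward orbit
-/

set_option autoImplicit false

open MvPolynomial
open Pool.Agent.H12.ZD (pmap)
open Pool.Agent.H18.HIT Pool.Agent.H18.HX Pool.Agent.H18.VZ
open Pool.Agent.H8.ZA (HFam Const NA)
open Pool.Agent.H8.TD (lc dg Cop lc_single lc_map lc_iterate)
open Pool.Agent.H8.TX (hn hn_nonneg hn_lc)
open Pool.Agent.H2.ED
open Pool.Agent.H18.TE (lg Gc T_GAL T_FIX T_EQD T_HLN)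
open Pool.Agent.H18.TXB (avn avn_nonneg avn_mem T_LFG hn_ht exists_algEquiv root_div fracX)
open Pool.Agent.H18.BKH (map_eval map_pmap map_orbit eval_memL orbit_memL Gc.prod_mem growB
  bounded_of_rec exists_large)

namespace Pool.Agent.H18.EDB

section poly

variable {ν : ℕ}

/-- a linear combination of the coordinates of an iterate -/
noncomputable def sF (F : Tup (ν + 2) Qb) (n : ℕ) (s : Fin (ν + 2) → Qb) : Po (ν + 2) Qb :=
  ∑ i, C (s i) * it F n i

variable {K : Type} [Field K] [Algebra Qb K] {P : Po (ν + 2) Qb} {F : Tup (ν + 2) Qb}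
  {ξ : Fin (ν + 2) → K} {τ : K →ₐ[Qb] K}

theorem aeval_sF (n : ℕ) (s : Fin (ν + 2) → Qb) :
    aeval ξ (sF F n s) = lc s fun i => aeval ξ (it F n i) := by
  rw [sF, map_sum, lc]
  refine Finset.sum_congr rfl fun i _ => ?_
  rw [map_mul, aeval_C, Algebra.smul_def]

theorem sF_hom {d : ℕ} (hF : ∀ i, (F i).IsHomogeneous d) (n : ℕ) (s : Fin (ν + 2) → Qb) :
    (sF F n s).IsHomogeneous (d ^ n) := by
  apply IsHomogeneous.sum
  intro i _
  have h1 := (isHomogeneous_C (Fin (ν + 2)) (s i)).mul (it_hom hF n i)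
  rwa [zero_add] at h1

theorem lc_pn {n : ℕ} (heq : ∀ i, pn τ ξ n i = aeval ξ (it F n i) / aeval ξ (it F n 1))
    (s : Fin (ν + 2) → Qb) : lc s (pn τ ξ n) = aeval ξ (sF F n s) / aeval ξ (it F n 1) := by
  rw [aeval_sF, lc, lc, Finset.sum_div]
  refine Finset.sum_congr rfl fun i _ => ?_
  rw [heq, smul_div_assoc]

/-- the equation for all iterates -/
theorem eq_shift (h : Fd P F ξ τ) {m E : ℕ} {Cf : Fin (E + 1) → Po (ν + 1) Qb}
    {s : Fin (ν + 2) → Qb}
    (hrel : ∑ j : Fin (E + 1), aeval (fun i : Fin (ν + 1) => pn τ ξ m i.succ) (Cf j) *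
        lc s ξ ^ (E - (j : ℕ)) = 0) (l : ℕ) :
    ∑ j : Fin (E + 1), aeval (fun i : Fin (ν + 1) => pn τ ξ (m + l) i.succ) (Cf j) *
        lc s (pn τ ξ l) ^ (E - (j : ℕ)) = 0 := by
  obtain ⟨g, hg⟩ := iter_algHomX τ l
  have h1 := congrArg g hrel
  rw [map_sum, map_zero] at h1
  rw [← h1]
  refine Finset.sum_congr rfl fun j _ => ?_
  have h2 : g (aeval (fun i : Fin (ν + 1) => pn τ ξ m i.succ) (Cf j)) =
      aeval (fun i : Fin (ν + 1) => pn τ ξ (m + l) i.succ) (Cf j) := by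
    have h3 : (fun i : Fin (ν + 1) => pn τ ξ (m + l) i.succ) =
        fun i => g (pn τ ξ m i.succ) := by
      funext i
      rw [hg, Nat.add_comm m l]
      exact (pn_add l m i.succ).symm
    rw [h3, ← AlgHom.comp_apply, comp_aeval]
  have h4 : g (lc s ξ) = lc s (pn τ ξ l) := by
    rw [lc_map, hg]
    rfl
  rw [map_mul, map_pow, h2, h4]

/-- the polynomial form of the equation -/
theorem eq_poly {r d : ℕ} (hP : Hyp P r) (hF : ∀ i, (F i).IsHomogeneous d)
    (hsl : Slf (Ideal.span {P}) F) (h : Fd P F ξ τ) {m E Y' : ℕ}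
    {Cf : Fin (E + 1) → Po (ν + 1) Qb} (hCf : ∀ j, (Cf j).IsHomogeneous Y') {s : Fin (ν + 2) → Qb}
    (hrel : ∀ l : ℕ, ∑ j : Fin (E + 1), aeval (fun i : Fin (ν + 1) => pn τ ξ (m + l) i.succ) (Cf j) *
        lc s (pn τ ξ l) ^ (E - (j : ℕ)) = 0) (l : ℕ) :
    P ∣ ∑ j : Fin (E + 1), aeval (fun i : Fin (ν + 1) => it F (m + l) i.succ) (Cf j) *
      (sF F l s ^ (E - (j : ℕ)) * it F l 1 ^ (j : ℕ)) := by
  refine (h.gp.iff (d ^ (m + l) * Y' + d ^ l * E) _ ?_).1 ?_
  · apply IsHomogeneous.sum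
    intro j _
    have h1 : (aeval (fun i : Fin (ν + 1) => it F (m + l) i.succ) (Cf j)).IsHomogeneous
        (d ^ (m + l) * Y') := (hCf j).aeval _ fun i => it_hom hF (m + l) i.succ
    have h2 := ((sF_hom hF l s).pow (E - (j : ℕ))).mul ((it_hom hF l 1).pow (j : ℕ))
    have h3 : d ^ l * (E - (j : ℕ)) + d ^ l * (j : ℕ) = d ^ l * E := by
      rw [← mul_add]
      congr 1
      have := j.2
      omega
    rw [h3] at h2
    exact h1.mul h2
  · have hpq := fun n => pn_eq h hP hF hsl n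
    have hF1 := (hpq (m + l)).1
    have hl := (hpq l).1
    have h1 : ∀ j : Fin (E + 1), aeval ξ (aeval (fun i : Fin (ν + 1) => it F (m + l) i.succ) (Cf j) *
        (sF F l s ^ (E - (j : ℕ)) * it F l 1 ^ (j : ℕ))) =
        (aeval ξ (it F (m + l) 1) ^ Y' * aeval ξ (it F l 1) ^ E) *
          (aeval (fun i : Fin (ν + 1) => pn τ ξ (m + l) i.succ) (Cf j) *
            lc s (pn τ ξ l) ^ (E - (j : ℕ))) := by
      intro j
      have h2 : aeval ξ (aeval (fun i : Fin (ν + 1) => it F (m + l) i.succ) (Cf j)) =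
          aeval ξ (it F (m + l) 1) ^ Y' *
            aeval (fun i : Fin (ν + 1) => pn τ ξ (m + l) i.succ) (Cf j) := by
        rw [← aeval_smul_hom (hCf j), ← AlgHom.comp_apply, comp_aeval]
        congr 2
        funext i
        rw [(hpq (m + l)).2, mul_div_cancel₀ _ hF1]
      have h3 : aeval ξ (sF F l s) = lc s (pn τ ξ l) * aeval ξ (it F l 1) := by
        rw [lc_pn (hpq l).2, div_mul_cancel₀ _ hl]
      have h4 : E - (j : ℕ) + (j : ℕ) = E := by
        have := j.2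
        omega
      rw [map_mul, map_mul, map_pow, map_pow, h2, h3, mul_pow]
      have h5 : aeval ξ (it F l 1) ^ E = aeval ξ (it F l 1) ^ (E - (j : ℕ)) *
          aeval ξ (it F l 1) ^ (j : ℕ) := by
        rw [← pow_add, h4]
      rw [h5]
      ring
    rw [map_sum, Finset.sum_congr rfl fun j _ => h1 j, ← Finset.mul_sum, hrel l, mul_zero]

end poly

section orbit

variable {ν : ℕ} {K : IntermediateField ℚ Qb}

/-- the iterates along a backward orbit -/
theorem back_iter {F : Tup (ν + 2) Qb} {k : ℕ} {x : ℕ → Fin (ν + 2) → Qb}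
    (hx : ∀ j, (pmap F)^[k] (x (j + 1)) = x j) (l i : ℕ) : (pmap F)^[k * l] (x (i + l)) = x i := by
  induction l generalizing i with
  | zero => rfl
  | succ l ih =>
    rw [Nat.mul_succ, Function.iterate_add_apply, show i + (l + 1) = (i + l) + 1 by omega, hx, ih]

/-- growth of the averaged heights along the backward orbit -/
theorem growX {F : Tup (ν + 2) Qb} {m k₀ k N : ℕ} (hk : k = k₀ * m) (hk₀ : 1 ≤ k₀) (hN : 2 ≤ N)
    {x : ℕ → Fin (ν + 2) → Qb} (hx : ∀ j, (pmap F)^[k] (x (j + 1)) = x j) (F' : HFam K)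
    {Γ : Finset (Qb ≃ₐ[K] Qb)} {L : IntermediateField K Qb} (hΓ : Gc K Γ L)
    (hKF : ∀ i, ∀ c ∈ (F i).coeffs, c ∈ K) (hxL : ∀ i, x N i ∈ L) (G : (Fin (ν + 2) → Qb) → Prop)
    (hG : ∀ n, G ((pmap F)^[n] (x N))) {κ β ρ c₀ A B C : ℝ}
    (hrec : ∀ y : Fin (ν + 2) → Qb, (∀ i, y i ∈ L) → G y → κ * avn F' Γ (af ((pmap F)^[m] y)) ≤
      avn F' Γ (af y) + β * avn F' Γ (af ((pmap F)^[m + m] y)) + Γ.card * c₀)
    (hκ : 2 < κ) (hβ : 0 ≤ β) (hβκ : 8 * β ≤ κ ^ 2) (hβρ : 8 * β ≤ κ * ρ) (hρ : 0 < ρ)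
    (hB : 0 ≤ B) (h0 : avn F' Γ (af (x 0)) ≤ Γ.card * (A + B))
    (h1 : Γ.card * (ρ * A - C) ≤ avn F' Γ (af ((pmap F)^[k - m] (x 1)))) (hA : 0 ≤ A)
    (hA1 : 2 * C + ρ * B ≤ ρ * A) (hA2 : C + 1 + 4 * |c₀| ≤ ρ * A) :
    (κ / 2) ^ k₀ * avn F' Γ (af (x (N - 1))) ≤ avn F' Γ (af (x N)) ∧
      (κ / 2) ^ (N - 1) * Γ.card ≤ κ / 2 * avn F' Γ (af (x (N - 1))) := by
  have hΓ0 : (0 : ℝ) < Γ.card := by
    exact_mod_cast hΓ.ne.card_pos
  obtain ⟨J, hJ⟩ : ∃ J : ℕ, J = k₀ * N := ⟨_, rfl⟩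
  have hJ1 : 1 ≤ J := by
    rw [hJ]
    exact Nat.one_le_iff_ne_zero.2 (Nat.mul_ne_zero (by omega) (by omega))
  have hmJ : m * J = k * N := by
    rw [hJ, hk]
    ring
  obtain ⟨W, hW⟩ : ∃ W : ℕ → Fin (ν + 2) → Qb, W = fun j => (pmap F)^[k * N - m * j] (x N) := ⟨_, rfl⟩
  have hW1 : ∀ j l, l + j ≤ J → (pmap F)^[m * l] (W (l + j)) = W j := by
    intro j l hjl
    rw [hW]
    simp only
    rw [← Function.iterate_add_apply]
    congr 1
    have h2 : m * (l + j) ≤ k * N := by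
      rw [← hmJ]
      exact Nat.mul_le_mul_left m hjl
    rw [Nat.mul_add] at h2 ⊢
    omega
  have hWL : ∀ j i, W j i ∈ L := fun j i => by
    rw [hW]
    exact orbit_memL F hKF (x N) hxL _ i
  have hWG : ∀ j, G (W j) := fun j => by
    rw [hW]
    exact hG _
  have hW0 : W 0 = x 0 := by
    rw [hW]
    simp only
    have h2 := back_iter hx N 0
    rw [Nat.zero_add] at h2
    rw [Nat.mul_zero, Nat.sub_zero, h2]
  have hWJ : W J = x N := by
    rw [hW]
    simp only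
    rw [hmJ, Nat.sub_self]
    rfl
  have hWu : W 1 = (pmap F)^[k - m] (x 1) := by
    rw [hW]
    simp only
    have h2 := back_iter hx (N - 1) 1
    rw [show 1 + (N - 1) = N by omega] at h2
    rw [← h2, ← Function.iterate_add_apply]
    congr 1
    have h3 : k * N = k * (N - 1) + k := by
      conv_lhs => rw [show N = (N - 1) + 1 by omega]
      ring
    have h4 : m ≤ k := by
      rw [hk]
      exact Nat.le_mul_of_pos_left m hk₀
    rw [Nat.mul_one]
    omega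
  obtain ⟨u, hu⟩ : ∃ u : ℕ → ℝ, u = fun j => avn F' Γ (af (W j)) / Γ.card := ⟨_, rfl⟩
  have hgr := growB u J (κ := κ) (β := β) (ρ := ρ) (c₀ := c₀) (A := A) (B := B)
    (C := C) hκ hβ hβκ hβρ hρ hB
    (by
      intro j hj
      have h2 := hrec (W (j + 2)) (hWL _) (hWG _)
      have h3 := hW1 (j + 1) 1 (by omega)
      have h4 := hW1 j 2 (by omega)
      rw [Nat.mul_one, show 1 + (j + 1) = j + 2 by omega] at h3
      rw [show m * 2 = m + m by ring, show 2 + j = j + 2 by omega] at h4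
      rw [h3, h4] at h2
      rw [hu]
      simp only
      rw [← sub_nonneg] at h2 ⊢
      have h5 : avn F' Γ (af (W (j + 2))) / Γ.card + β * (avn F' Γ (af (W j)) / Γ.card) + c₀ -
          κ * (avn F' Γ (af (W (j + 1))) / Γ.card) = (avn F' Γ (af (W (j + 2))) +
            β * avn F' Γ (af (W j)) + Γ.card * c₀ - κ * avn F' Γ (af (W (j + 1)))) / Γ.card := by
        field_simp
      rw [h5]
      exact div_nonneg h2 hΓ0.le)
    (by
      rw [hu]
      simp only
      rw [hW0, div_le_iff₀ hΓ0]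
      linarith)
    (by
      rw [hu]
      simp only
      rw [hWu, le_div_iff₀ hΓ0]
      linarith)
    hA hA1 hA2
  have hκ2 : 1 < κ / 2 := by linarith
  obtain ⟨j₁, hj₁⟩ : ∃ j₁ : ℕ, j₁ = k₀ * (N - 1) := ⟨_, rfl⟩
  have hj1 : 1 ≤ j₁ := by
    rw [hj₁]
    exact Nat.one_le_iff_ne_zero.2 (Nat.mul_ne_zero (by omega) (by omega))
  have hJj : J = j₁ + k₀ := by
    rw [hJ, hj₁]
    conv_lhs => rw [show N = (N - 1) + 1 by omega]
    ring
  have hWj : W j₁ = x (N - 1) := by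
    rw [hW]
    simp only
    have h2 : m * j₁ = k * (N - 1) := by
      rw [hj₁, hk]
      ring
    have h3 : k * N = k * (N - 1) + k := by
      conv_lhs => rw [show N = (N - 1) + 1 by omega]
      ring
    rw [h2, h3, Nat.add_sub_cancel_left]
    have h4 := hx (N - 1)
    rwa [show N - 1 + 1 = N by omega] at h4
  have hstep : ∀ i, i ≤ k₀ → (κ / 2) ^ i * u j₁ ≤ u (j₁ + i) := by
    intro i
    induction i with
    | zero =>
      intro _
      rw [pow_zero, one_mul, Nat.add_zero]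
    | succ i ih =>
      intro hi
      have h2 := ih (by omega)
      have h3 := (hgr (j₁ + i - 1) (by omega)).2.2.2 (by omega)
      rw [show j₁ + i - 1 + 1 = j₁ + i by omega, show j₁ + i - 1 + 2 = j₁ + (i + 1) by omega] at h3
      calc (κ / 2) ^ (i + 1) * u j₁ = κ / 2 * ((κ / 2) ^ i * u j₁) := by ring
        _ ≤ κ / 2 * u (j₁ + i) := mul_le_mul_of_nonneg_left h2 (by linarith)
        _ ≤ _ := h3
  have hu1 : u j₁ * Γ.card = avn F' Γ (af (x (N - 1))) := by
    rw [hu]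
    simp only
    rw [hWj, div_mul_cancel₀ _ hΓ0.ne']
  have hu2 : u J * Γ.card = avn F' Γ (af (x N)) := by
    rw [hu]
    simp only
    rw [hWJ, div_mul_cancel₀ _ hΓ0.ne']
  constructor
  · have h2 := mul_le_mul_of_nonneg_right (hstep k₀ le_rfl) hΓ0.le
    rw [← hJj, hu2, mul_assoc, hu1] at h2
    exact h2
  · have h2 := (hgr (j₁ - 1) (by omega)).2.2.1
    rw [show j₁ - 1 + 1 = j₁ by omega] at h2
    have h3 : (κ / 2) ^ (N - 1) ≤ (κ / 2) ^ j₁ := by
      apply pow_le_pow_right₀ hκ2.le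
      rw [hj₁]
      exact Nat.le_mul_of_pos_left _ hk₀
    have h4 : (κ / 2) ^ j₁ = κ / 2 * (κ / 2) ^ (j₁ - 1) := by
      conv_lhs => rw [show j₁ = (j₁ - 1) + 1 by omega]
      ring
    have h5 : (κ / 2) ^ (N - 1) ≤ κ / 2 * u j₁ := by
      rw [h4] at h3
      exact h3.trans (mul_le_mul_of_nonneg_left h2 (by linarith))
    have h6 := mul_le_mul_of_nonneg_right h5 hΓ0.le
    rwa [mul_assoc, hu1] at h6

end orbit

end Pool.Agent.H18.EDB
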