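import Pool.Agent.H2.ED.Targets2
import Pool.Agent.H18.TXB.Targets

/-!
# Zariski dense orbits in dimension `ν` by backward heights: the targets

The notation is that of `Pool.Agent.H2.ED`: `P` is irreducible, homogeneous and monic in `X 0`,
affine coordinates are the quotients by `X 1`.
-/

open MvPolynomial
open Pool.Agent.H12.ZD (pmap)
open Pool.Agent.H18.HIT Pool.Agent.H18.HX Pool.Agent.H18.VZ
open Pool.Agent.H8.ZA (HFam Const NA)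
open Pool.Agent.H8.TD (lc dg Cop)
open Pool.Agent.H8.TX (hn)
open Pool.Agent.H2.ED
open Pool.Agent.H18.TE (lg Gc)
open Pool.Agent.H18.TXB (avn)

namespace Pool.Agent.H18.EDB

/-! ## Definitions -/

/-- the intersection number of `j` linear forms in `φ` and `ν - j` linear forms in `ξ` -/
noncomputable def dgm (k : Type) {K : Type} [Field k] [Field K] [Algebra k K] {ν : ℕ}
    (φ ξ : Fin (ν + 2) → K) (j : ℕ) (s : Fin ν → Fin (ν + 2) → k) : ℕ :=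
  dg k (Set.range fun i : Fin ν => lc (s i) (if (i : ℕ) < j then φ else ξ))

/-- the backward recursion for the heights at the scale `m`, for families of points outside the
hypersurfaces in `T` -/
def Rcb {ν : ℕ} (P : Po (ν + 2) Qb) (F : Tup (ν + 2) Qb) (m : ℕ) (κ β : ℝ)
    (T : Finset (Po (ν + 2) Qb)) : Prop :=
  ∀ (K' : IntermediateField ℚ Qb) (F' : HFam K'), ∃ c₀ : ℝ,
    ∀ (μ : ℕ) (z : Fin μ → Fin (ν + 2) → Qb), (∀ j, eval (z j) P = 0) → (∀ j, z j 1 = 1) →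
      (∀ j, ∀ p ∈ T, eval (z j) p ≠ 0) → (∀ p ∈ T, ∏ j, eval (z j) p ∈ K') →
      κ * ∑ j, hn F' (af (pmap (it F m) (z j))) ≤ ∑ j, hn F' (z j) +
        β * ∑ j, hn F' (af (pmap (it F (m + m)) (z j))) + μ * c₀

/-! ## A. The recursion (block M) -/

/-- the recursion at all large scales; `c` is close to the quotient of the dynamical degree
`λ_(ν - 1)` by `e` -/
def T_NUB : Prop := ∀ (ν r d e : ℕ) (P : Po (ν + 2) Qb) (F : Tup (ν + 2) Qb) (K : Type) [Field K]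
  [Algebra Qb K] (ξ : Fin (ν + 2) → K) (τ : K →ₐ[Qb] K) (μ μ' C : ℝ), 3 ≤ ν → Hyp P r →
  (∀ i, (F i).IsHomogeneous d) → Slf (Ideal.span {P}) F → Fd P F ξ τ →
  Module.finrank τ.fieldRange K ≤ e → (e : ℝ) < μ → 0 ≤ μ' → μ' < μ →
  (∀ N, ∃ n ≥ N, ∃ s, μ ^ n ≤ (dgm Qb (pn τ ξ n) ξ (ν - 1) s : ℝ)) →
  (∀ n s, (dgm Qb (pn τ ξ n) ξ (ν - 3) s : ℝ) ≤ C * μ' ^ n) →
  ∃ c : ℝ, 1 < c ∧ μ' < c * e ∧ ∀ Λ : ℝ, ∃ m₀ : ℕ, ∀ m ≥ m₀,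
    (∃ s, Λ * (c * e) ^ m ≤ (dgm Qb (pn τ ξ m) ξ (ν - 1) s : ℝ)) ∧
    ∃ (κ β : ℝ) (T : Finset (Po (ν + 2) Qb)), 0 ≤ β ∧ 2 * c ^ m ≤ κ ∧ 8 * β ≤ κ * c ^ m ∧
      (∀ p ∈ T, aeval ξ p ≠ 0) ∧ Rcb P F m κ β T

/-! ## B. Equations and heights -/

/-- the minimal equation of a function over the functions of `μ`, with forms as coefficients -/
def T_CHN : Prop := ∀ (ρ : ℕ) (k K : Type) [Field k] [Infinite k] [Field K] [Algebra k K]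
  (μ : Fin ρ → K) (z : K), 1 ≤ ρ → Algebra.trdeg k K = ρ →
  Algebra.IsAlgebraic (IntermediateField.adjoin k (Set.range μ)) K →
  ∃ (E Y : ℕ) (Cf : Fin (E + 1) → Po (ρ + 1) k), 1 ≤ E ∧ (∀ j, (Cf j).IsHomogeneous Y) ∧ Cop Cf ∧
    Cf 0 ≠ 0 ∧
    Irreducible (∑ j : Fin (E + 1), Polynomial.C (Cf j) * Polynomial.X ^ (E - (j : ℕ))) ∧
    ∑ j : Fin (E + 1), aeval (Fin.cons 1 μ : Fin (ρ + 1) → K) (Cf j) * z ^ (E - (j : ℕ)) = 0 ∧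
    (∀ s' : Fin (ρ - 1) → Fin ρ → k, dg k (insert z (Set.range fun i => lc (s' i) μ)) * E ≤
      Y * dg k (Set.range μ)) ∧
    ∃ s' : Fin (ρ - 1) → Fin ρ → k, Y * dg k (Set.range μ) ≤
      dg k (insert z (Set.range fun i => lc (s' i) μ)) * E

/-- heights of the points of the hypersurface over a line -/
def T_HTN : Prop := ∀ (ν : ℕ) (P : Po (ν + 2) Qb) (r : ℕ) (w v : Fin (ν + 1) → Qb), Hyp P r →
  (∃ i, v i ≠ 0) → (∀ t : Qb, ∃ i, w i + t * v i ≠ 0) →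
  ∀ (K₀ : IntermediateField ℚ Qb) (F : HFam K₀),
  (∀ t : ℤ, w 0 + (t : Qb) * v 0 ∈ K₀) → ∃ c : ℝ, ∀ (t : ℤ) (u : Qb), t ≠ 0 →
    w 0 + (t : Qb) * v 0 ≠ 0 →
    eval (Fin.cons u (fun i => w i + (t : Qb) * v i) : Fin (ν + 2) → Qb) P = 0 →
    |hn F (af (Fin.cons u (fun i => w i + (t : Qb) * v i) : Fin (ν + 2) → Qb)) -
      (F.arch.card * Real.log |(t : ℝ)|)| ≤ c

/-- the minimal equation of a linear form in `ξ` over the coordinates of `f ^ m` -/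
def T_EQN : Prop := ∀ (ν r d e m : ℕ) (P : Po (ν + 2) Qb) (F : Tup (ν + 2) Qb) (K : Type)
  [Field K] [Algebra Qb K] (ξ : Fin (ν + 2) → K) (τ : K →ₐ[Qb] K) (Y : ℕ)
  (s : Fin ν → Fin (ν + 2) → Qb), 2 ≤ ν → Hyp P r → (∀ i, (F i).IsHomogeneous d) →
  Slf (Ideal.span {P}) F → Fd P F ξ τ → Module.finrank τ.fieldRange K ≤ e → 1 ≤ e →
  Y ≤ dgm Qb (pn τ ξ m) ξ (ν - 1) s → 1 ≤ Y →
  ∃ (E₁ Y' : ℕ) (Cf : Fin (E₁ + 1) → Po (ν + 1) Qb) (s₀ : Fin (ν + 2) → Qb), 1 ≤ E₁ ∧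
    (∀ j, (Cf j).IsHomogeneous Y') ∧ Cop Cf ∧ Cf 0 ≠ 0 ∧
    Irreducible (∑ j : Fin (E₁ + 1), Polynomial.C (Cf j) * Polynomial.X ^ (E₁ - (j : ℕ))) ∧
    (E₁ : ℝ) * ((Y : ℝ) / ((r : ℝ) ^ ν * (e : ℝ) ^ m)) ≤ Y' ∧
    ∑ j : Fin (E₁ + 1), aeval (fun i : Fin (ν + 1) => pn τ ξ m i.succ) (Cf j) *
      lc s₀ ξ ^ (E₁ - (j : ℕ)) = 0

/-! ## C. The backward orbit -/

/-- backward orbits which start over a line, in a totally invariant orbit closure; the orbit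
meets a hypersurface which does not contain the orbit closure only finitely often -/
def T_COF : Prop := ∀ (N r d m : ℕ) (P b : Po (N + 1) Qb) (F : Tup (N + 1) Qb), 1 ≤ N → 1 ≤ m →
  Hyp P r → r ≤ d → (∀ i, (F i).IsHomogeneous d) → Slf (Ideal.span {P}) F →
  (∃ l, b.IsHomogeneous l) → ¬ P ∣ b →
  ∃ (k : ℕ) (α : Fin N → Qb) (ϖ : Qb), 1 ≤ k ∧ m ∣ k ∧ ϖ ≠ 0 ∧
  ∀ (E : ℕ) (θ Δ : Po (N + 1) Qb), Bas P (it F k) E θ Δ → Cvi (Ideal.span {P}) (it F k) E →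
  ∀ g : Po N Qb, g ≠ 0 →
  ∃ y : Fin N → ℤ, eval (fun i => α i + ϖ * (y i : Qb)) g ≠ 0 ∧
  ∀ c' : Po N Qb, c' ≠ 0 → ∃ b' : Fin N → ℤ, eval (cZ b') c' ≠ 0 ∧
  ∀ (s : Finset Qb) (M₀ : ℕ), ∃ (t : ℤ) (x : ℕ → Fin (N + 1) → Qb), (M₀ : ℤ) < |t| ∧
    (∀ i : Fin N, x 0 i.succ = α i + ϖ * ((y i + t * b' i : ℤ) : Qb)) ∧
    (∀ j, eval (x j) P = 0) ∧ (∀ j, (pmap F)^[k] (x (j + 1)) = x j) ∧
    (∀ j n : ℕ, eval ((pmap F)^[n] (x j)) b ≠ 0) ∧ eval (x 0) (up g) ≠ 0 ∧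
    (van (it F k) (x 0)).IsPrime ∧ Tot P (it F k) E θ (van (it F k) (x 0)) ∧
    (∀ j, ∀ q ∈ van (it F k) (x 0), eval (x j) q = 0) ∧
    (∀ q, q ∉ van (it F k) (x 0) → {j | eval (x j) q = 0}.Finite) ∧
    ∀ x' : Fin (N + 1) → Qb, eval x' P = 0 →
      (∀ i : Fin N, (pmap F)^[k] x' i.succ = x 0 i.succ) →
      ∃ σ : Qb ≃+* Qb, (∀ a ∈ s, σ a = a) ∧ (∀ i, σ (x 0 i) = (pmap F)^[k] x' i) ∧
        ∀ i, σ (x 1 i) = x' i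

/-! ## D. Totally invariant subvarieties -/

/-- the fibres of a self-map over the points of a totally invariant closed subset `V`: preimages
in `V`, outside a given hypersurface `v` -/
def T_FBV : Prop := ∀ (ν D E e : ℕ) (k : Type) [Field k] [IsAlgClosed k] [CharZero k]
  (P θ Δ v : Po (ν + 2) k) (G : Tup (ν + 2) k) (V : Ideal (Po (ν + 2) k)), V.IsPrime → 1 ≤ D →
  (∀ i, (G i).IsHomogeneous D) → Hmi V → X 1 ∉ V → P ∈ V → (∀ q, aeval G q ∈ V ↔ q ∈ V) →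
  Bas P G E θ Δ → Δ ∉ V → Tot P G E θ V → D * e ≤ E → v ∉ V → (∃ m, v.IsHomogeneous m) →
  ∃ u, u ∉ V ∧ (∃ m, u.IsHomogeneous m) ∧ ∀ y : Fin (ν + 2) → k, Zer V y → eval y u ≠ 0 →
    ∃ S : Finset (Fin (ν + 2) → k), S.card = e ∧ ∀ x ∈ S, Zer V x ∧ x 1 = 1 ∧ eval x v ≠ 0 ∧
      pmap G x 1 ≠ 0 ∧ af (pmap G x) = af y

/-- heights in the fibres of an iterate of a self-map, on a totally invariant closed subset which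
is not a hypersurface -/
def T_VSB : Prop := ∀ (ν r₀ d k E : ℕ) (P θ Δ : Po (ν + 2) Qb) (F : Tup (ν + 2) Qb)
  (V : Ideal (Po (ν + 2) Qb)) (K : Type) [Field K] [Algebra Qb K] (ξ : Fin (ν + 2) → K)
  (τ : K →ₐ[Qb] K), 3 ≤ ν → Hyp P r₀ → (∀ i, (F i).IsHomogeneous d) → 1 ≤ d →
  Slf (Ideal.span {P}) F → Fd P F ξ τ → 1 ≤ k → V.IsPrime → Hmi V → X 1 ∉ V → P ∈ V →
  (∃ c ∈ V, ¬ P ∣ c) → (¬ ∃ h, Pdv P V h) → (∀ q, aeval (it F k) q ∈ V ↔ q ∈ V) →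
  Bas P (it F k) E θ Δ → Δ ∉ V → Tot P (it F k) E θ V → pderiv 0 P ∉ V →
  (jm P (it F k)).det ∉ V → ∃ C_V : ℕ, ∀ n B : ℕ,
    (∀ s, dgm Qb (pn τ ξ (k * n)) ξ (ν - 3) s ≤ B) →
    ∃ (u : Po (ν + 2) Qb) (A : Finset Qb), u ∉ V ∧
      ∀ (K' : IntermediateField ℚ Qb) (F' : HFam K'), (∀ a ∈ A, a ∈ K') → ∃ c : ℝ,
        ∀ (Γ : Finset (Qb ≃ₐ[K'] Qb)) (L : IntermediateField K' Qb), Gc K' Γ L →
        ∀ y : Fin (ν + 2) → Qb, (∀ i, y i ∈ L) → (∀ q ∈ V, eval y q = 0) → y 1 ≠ 0 →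
          eval y u ≠ 0 → ∀ S : Finset (Fin (ν + 2) → Qb),
          (∀ x ∈ S, (∀ i, x i ∈ L) ∧ (∀ q ∈ V, eval x q = 0) ∧ x 1 = 1 ∧
            (pmap (it F k))^[n] x 1 ≠ 0 ∧ af ((pmap (it F k))^[n] x) = af y) →
          ∑ x ∈ S, avn F' Γ x ≤ C_V * B * avn F' Γ (af y) + Γ.card * c

/-! ## E. The theorem for hypersurfaces -/

/-- **the theorem**: `λ_(ν - 1)` is larger than the topological degree and than `λ_(ν - 3)` -/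
def T_BET : Prop := ∀ (ν r d e : ℕ) (P b : Po (ν + 2) Qb) (F : Tup (ν + 2) Qb) (K : Type)
  [Field K] [Algebra Qb K] (ξ : Fin (ν + 2) → K) (τ : K →ₐ[Qb] K) (μ μ' C : ℝ), 3 ≤ ν →
  Hyp P r → r ≤ d → 2 ≤ d → (∀ i, (F i).IsHomogeneous d) → Slf (Ideal.span {P}) F → NIv P F →
  Fd P F ξ τ → 1 ≤ e → Module.finrank τ.fieldRange K ≤ e → Cvi (Ideal.span {P}) F (d * e) →
  (e : ℝ) < μ → 0 ≤ μ' → μ' < μ →
  (∀ N, ∃ n ≥ N, ∃ s, μ ^ n ≤ (dgm Qb (pn τ ξ n) ξ (ν - 1) s : ℝ)) →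
  (∀ n s, (dgm Qb (pn τ ξ n) ξ (ν - 3) s : ℝ) ≤ C * μ' ^ n) →
  (∃ m, b.IsHomogeneous m) → ¬ P ∣ b →
  ∃ x : Fin (ν + 2) → Qb, eval x P = 0 ∧ (∀ n : ℕ, eval ((pmap F)^[n] x) b ≠ 0) ∧
    ∀ c : Po (ν + 2) Qb, (∀ n : ℕ, eval ((pmap F)^[n] x) c = 0) → P ∣ c

end Pool.Agent.H18.EDB
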