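import Pool.Agent.H18.EDB.Targets

/-!
# Zariski dense orbits in dimension `ν` by backward heights: fibre trees and the backward orbit
-/

open MvPolynomial
open Pool.Agent.H12.ZD (pmap)
open Pool.Agent.H18.HIT Pool.Agent.H18.HX Pool.Agent.H18.VZ
open Pool.Agent.H8.ZA (HFam Const NA)
open Pool.Agent.H8.TD (lc dg Cop)
open Pool.Agent.H8.TX (hn)
open Pool.Agent.H2.ED
open Pool.Agent.H18.TE (lg Gc)
open Pool.Agent.H18.TXB (avn)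

namespace Pool.Agent.H18.EDB

open Classical in
/-- `T i`, `i ≤ l`, are sets of normalized points of `V` in the fibres of `G ^ i` over `y`; every
point of `T i` has exactly `e` preimages in `T (i + 1)`; `v` does not vanish at the points -/
structure Tree {ν : ℕ} {k : Type} [Field k] (V : Ideal (Po (ν + 2) k)) (G : Tup (ν + 2) k)
    (v : Po (ν + 2) k) (e l : ℕ) (y : Fin (ν + 2) → k) (T : ℕ → Finset (Fin (ν + 2) → k)) :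
    Prop where
  zero : T 0 = {af y}
  mem : ∀ i, ∀ x ∈ T i, Zer V x ∧ x 1 = 1
  step : ∀ i < l, ∀ x ∈ T (i + 1), eval x v ≠ 0 ∧ pmap G x 1 ≠ 0 ∧ af (pmap G x) ∈ T i
  cnt : ∀ i < l, ∀ z ∈ T i, ((T (i + 1)).filter fun x => af (pmap G x) = z).card = e

/-- existence of the tree of the preimages -/
def T_TRE : Prop := ∀ (ν D E e : ℕ) (k : Type) [Field k] [IsAlgClosed k] [CharZero k]
  (P θ Δ v : Po (ν + 2) k) (G : Tup (ν + 2) k) (V : Ideal (Po (ν + 2) k)), V.IsPrime → 1 ≤ D →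
  (∀ i, (G i).IsHomogeneous D) → Hmi V → X 1 ∉ V → P ∈ V → (∀ q, aeval G q ∈ V ↔ q ∈ V) →
  Bas P G E θ Δ → Δ ∉ V → Tot P G E θ V → D * e ≤ E → v ∉ V → (∃ m, v.IsHomogeneous m) →
  ∀ l : ℕ, ∃ u, u ∉ V ∧ (∃ m, u.IsHomogeneous m) ∧ ∀ y : Fin (ν + 2) → k, Zer V y →
    y 1 ≠ 0 → eval y u ≠ 0 → ∃ T : ℕ → Finset (Fin (ν + 2) → k), Tree V G v e l y T

/-- growth of the heights along the tree -/
def T_TWR : Prop := ∀ (ν r d k e l : ℕ) (P v : Po (ν + 2) Qb) (F : Tup (ν + 2) Qb)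
  (V : Ideal (Po (ν + 2) Qb)) (κ β q : ℝ) (U : Finset (Po (ν + 2) Qb)), Hyp P r →
  (∀ i, (F i).IsHomogeneous d) → P ∈ V → 1 ≤ e → 1 ≤ q → 2 * q ≤ κ → 0 ≤ β → 8 * β ≤ κ * q →
  Rcb P F k κ β U → (∀ x : Fin (ν + 2) → Qb, x 1 = 1 → eval x v ≠ 0 → ∀ p ∈ U, eval x p ≠ 0) →
  ∀ (K' : IntermediateField ℚ Qb) (F' : HFam K'), (∀ i, ∀ c ∈ (F i).coeffs, c ∈ K') →
  (∀ p ∈ U, ∀ c ∈ p.coeffs, c ∈ K') → (∀ c ∈ P.coeffs, c ∈ K') → ∃ C₀ : ℝ, 0 ≤ C₀ ∧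
  ∀ (y : Fin (ν + 2) → Qb) (T : ℕ → Finset (Fin (ν + 2) → Qb)), Tree V (it F k) v e l y T →
    Zer V y → y 1 ≠ 0 → pmap (it F k) y 1 ≠ 0 →
    ∀ (Γ : Finset (Qb ≃ₐ[K'] Qb)) (L : IntermediateField K' Qb), Gc K' Γ L →
      (∀ i, ∀ x ∈ T i, ∀ s, x s ∈ L) → (∀ s, y s ∈ L) →
      q * avn F' Γ (af (pmap (it F k) y)) ≤ avn F' Γ (af y) →
      C₀ * Γ.card ≤ avn F' Γ (af y) → ∀ i ≤ l,
      (e * q) ^ i * avn F' Γ (af y) ≤ ∑ x ∈ T i, avn F' Γ x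

/-- the backward orbit and the growth of its heights -/
def T_ORB : Prop := ∀ (ν r d e m Y : ℕ) (P b : Po (ν + 2) Qb) (F : Tup (ν + 2) Qb) (K : Type)
  [Field K] [Algebra Qb K] (ξ : Fin (ν + 2) → K) (τ : K →ₐ[Qb] K) (κ β : ℝ)
  (T : Finset (Po (ν + 2) Qb)) (s : Fin ν → Fin (ν + 2) → Qb), 2 ≤ ν → Hyp P r → r ≤ d →
  (∀ i, (F i).IsHomogeneous d) → Slf (Ideal.span {P}) F → Fd P F ξ τ → 1 ≤ e →
  Module.finrank τ.fieldRange K ≤ e → 1 ≤ m → 1 ≤ Y → Y ≤ dgm Qb (pn τ ξ m) ξ (ν - 1) s →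
  0 ≤ β → 2 < κ → 8 * β ≤ κ ^ 2 → 8 * β ≤ κ * ((Y : ℝ) / ((r : ℝ) ^ ν * (e : ℝ) ^ m)) →
  (∀ p ∈ T, aeval ξ p ≠ 0) → Rcb P F m κ β T → (∃ l, b.IsHomogeneous l) → ¬ P ∣ b →
  ∃ k, 1 ≤ k ∧ m ∣ k ∧ ∀ (E : ℕ) (θ Δ : Po (ν + 2) Qb), Bas P (it F k) E θ Δ →
    Cvi (Ideal.span {P}) (it F k) E → ∀ g : Po (ν + 1) Qb, g ≠ 0 →
    ∃ (x : ℕ → Fin (ν + 2) → Qb) (K₀ : IntermediateField ℚ Qb) (F' : HFam K₀),
      FiniteDimensional ℚ K₀ ∧ (∀ i, ∀ c ∈ (F i).coeffs, c ∈ K₀) ∧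
      (∀ j, eval (x j) P = 0) ∧ (∀ j, (pmap F)^[k] (x (j + 1)) = x j) ∧
      (∀ j n : ℕ, eval ((pmap F)^[n] (x j)) b ≠ 0) ∧ (∀ j n : ℕ, (pmap F)^[n] (x j) 1 ≠ 0) ∧
      eval (x 0) (up g) ≠ 0 ∧ (van (it F k) (x 0)).IsPrime ∧
      Tot P (it F k) E θ (van (it F k) (x 0)) ∧
      (∀ j, ∀ q ∈ van (it F k) (x 0), eval (x j) q = 0) ∧
      (∀ q, q ∉ van (it F k) (x 0) → {j | eval (x j) q = 0}.Finite) ∧
      ∀ (N : ℕ) (Γ : Finset (Qb ≃ₐ[K₀] Qb)) (L : IntermediateField K₀ Qb), 1 ≤ N →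
        Gc K₀ Γ L → (∀ i, x (N + 1) i ∈ L) →
        (κ / 2) ^ (k / m) * avn F' Γ (af (x N)) ≤ avn F' Γ (af (x (N + 1))) ∧
        (κ / 2) ^ N * Γ.card ≤ (κ / 2) * avn F' Γ (af (x N))

end Pool.Agent.H18.EDB
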